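import Pool.Agent.Y519.HB.Gen

/-!
# Squares of decomposable two-forms in some places
-/

set_option autoImplicit false

namespace Pool.Agent.Y519.HB

open Pool.Agent.W666.GB Pool.Agent.W669.HD Finset

variable {m : ℕ}

/-- alternation in the first and in the last two arguments -/
def alt4 (A : T4 m) : T4 m := fun i j k l => A i j k l - A j i k l - A i j l k + A j i l k

theorem sn_swap' {P : Type*} [Fintype P] [DecidableEq P] {x y : P} (h : x ≠ y) :
    sn (Equiv.swap x y) = -1 := by
  simp [sn, Equiv.Perm.sign_swap h]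

theorem gm_alt_place (b₀ : Fin m) {D D' : Fin m → T4 m} (h : ∀ b, b ≠ b₀ → D b = D' b)
    (h0 : D b₀ = alt4 (D' b₀)) : gm D = 4 * gm D' := by
  classical
  set s : Equiv.Perm (Fin m × Bool) := Equiv.swap (b₀, false) (b₀, true) with hs
  set f : Equiv.Perm (Fin m × Bool) → Equiv.Perm (Fin m × Bool) → ℝ := fun σ τ =>
    sn σ * sn τ * ∏ b, D' b (σ (b, false)) (σ (b, true)) (τ (b, false)) (τ (b, true)) with hf
  have hne : ((b₀, false) : Fin m × Bool) ≠ (b₀, true) := by simp
  have hsn : ∀ σ : Equiv.Perm (Fin m × Bool), sn (σ * s) = - sn σ := by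
    intro σ
    rw [sn_mul, hs, sn_swap' hne]; ring
  have h0' : ∀ σ : Equiv.Perm (Fin m × Bool), (σ * s) (b₀, false) = σ (b₀, true) := by
    intro σ
    rw [Equiv.Perm.mul_apply, hs, Equiv.swap_apply_left]
  have h1' : ∀ σ : Equiv.Perm (Fin m × Bool), (σ * s) (b₀, true) = σ (b₀, false) := by
    intro σ
    rw [Equiv.Perm.mul_apply, hs, Equiv.swap_apply_right]
  have h2' : ∀ (σ : Equiv.Perm (Fin m × Bool)) (b : Fin m) (β : Bool), b ≠ b₀ →
      (σ * s) (b, β) = σ (b, β) := by
    intro σ b β hb
    rw [Equiv.Perm.mul_apply, hs, Equiv.swap_apply_of_ne_of_ne]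
    · exact fun hc => hb (congrArg Prod.fst hc)
    · exact fun hc => hb (congrArg Prod.fst hc)
  have key : ∀ σ τ : Equiv.Perm (Fin m × Bool), sn σ * sn τ *
      ∏ b, D b (σ (b, false)) (σ (b, true)) (τ (b, false)) (τ (b, true)) =
      f σ τ + f (σ * s) τ + f σ (τ * s) + f (σ * s) (τ * s) := by
    intro σ τ
    simp only [hf]
    rw [← Finset.mul_prod_erase univ _ (Finset.mem_univ b₀),
      ← Finset.mul_prod_erase univ (fun b => D' b (σ (b, false)) (σ (b, true)) (τ (b, false))
        (τ (b, true))) (Finset.mem_univ b₀),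
      ← Finset.mul_prod_erase univ (fun b => D' b ((σ * s) (b, false)) ((σ * s) (b, true))
        (τ (b, false)) (τ (b, true))) (Finset.mem_univ b₀),
      ← Finset.mul_prod_erase univ (fun b => D' b (σ (b, false)) (σ (b, true))
        ((τ * s) (b, false)) ((τ * s) (b, true))) (Finset.mem_univ b₀),
      ← Finset.mul_prod_erase univ (fun b => D' b ((σ * s) (b, false)) ((σ * s) (b, true))
        ((τ * s) (b, false)) ((τ * s) (b, true))) (Finset.mem_univ b₀)]
    have e1 : ∏ b ∈ univ.erase b₀, D b (σ (b, false)) (σ (b, true)) (τ (b, false)) (τ (b, true)) =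
        ∏ b ∈ univ.erase b₀, D' b (σ (b, false)) (σ (b, true)) (τ (b, false)) (τ (b, true)) :=
      prod_congr rfl fun b hb => by rw [h b (Finset.ne_of_mem_erase hb)]
    have e2 : ∏ b ∈ univ.erase b₀, D' b ((σ * s) (b, false)) ((σ * s) (b, true))
        (τ (b, false)) (τ (b, true)) =
        ∏ b ∈ univ.erase b₀, D' b (σ (b, false)) (σ (b, true)) (τ (b, false)) (τ (b, true)) :=
      prod_congr rfl fun b hb => by
        rw [h2' σ b _ (Finset.ne_of_mem_erase hb), h2' σ b _ (Finset.ne_of_mem_erase hb)]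
    have e3 : ∏ b ∈ univ.erase b₀, D' b (σ (b, false)) (σ (b, true))
        ((τ * s) (b, false)) ((τ * s) (b, true)) =
        ∏ b ∈ univ.erase b₀, D' b (σ (b, false)) (σ (b, true)) (τ (b, false)) (τ (b, true)) :=
      prod_congr rfl fun b hb => by
        rw [h2' τ b _ (Finset.ne_of_mem_erase hb), h2' τ b _ (Finset.ne_of_mem_erase hb)]
    have e4 : ∏ b ∈ univ.erase b₀, D' b ((σ * s) (b, false)) ((σ * s) (b, true))
        ((τ * s) (b, false)) ((τ * s) (b, true)) =
        ∏ b ∈ univ.erase b₀, D' b (σ (b, false)) (σ (b, true)) (τ (b, false)) (τ (b, true)) :=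
      prod_congr rfl fun b hb => by
        rw [h2' τ b _ (Finset.ne_of_mem_erase hb), h2' τ b _ (Finset.ne_of_mem_erase hb),
          h2' σ b _ (Finset.ne_of_mem_erase hb), h2' σ b _ (Finset.ne_of_mem_erase hb)]
    rw [e1, e2, e3, e4, h0]
    simp only [hsn, h0', h1', alt4]
    ring
  have r1 : ∑ σ, ∑ τ, f (σ * s) τ = ∑ σ, ∑ τ, f σ τ :=
    Equiv.sum_comp (Equiv.mulRight s) (fun σ => ∑ τ, f σ τ)
  have r2 : ∑ σ, ∑ τ, f σ (τ * s) = ∑ σ, ∑ τ, f σ τ :=
    sum_congr rfl fun σ _ => Equiv.sum_comp (Equiv.mulRight s) (fun τ => f σ τ)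
  have r3 : ∑ σ, ∑ τ, f (σ * s) (τ * s) = ∑ σ, ∑ τ, f σ τ := by
    rw [← r2]
    exact Equiv.sum_comp (Equiv.mulRight s) (fun σ => ∑ τ, f σ (τ * s))
  unfold gm
  simp only [key, sum_add_distrib]
  rw [r1, r2, r3]
  simp only [hf]
  ring

theorem gm_alt (A : Fin m → T4 m) (T : Finset (Fin m)) :
    gm (fun b => if b ∈ T then alt4 (A b) else A b) = 4 ^ T.card * gm A := by
  classical
  induction T using Finset.induction_on with
  | empty => simp
  | insert b₀ T hb ih =>
    rw [card_insert_of_notMem hb, pow_succ, mul_comm _ (4 : ℝ), mul_assoc, ← ih]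
    refine gm_alt_place b₀ ?_ ?_
    · intro b hne
      simp only [mem_insert, hne, false_or]
    · simp [hb]

/-- a vector whose components vanish outside one colour -/
def Pur {J ι : Type*} (col : J → ι) (x : J → ℝ) : Prop := ∃ i, ∀ j, col j ≠ i → x j = 0

/-- nonnegativity of the mixed sums with pure covectors outside `S` -/
def Good {ι : Type*} (col : Fin m × Bool → ι) (S : Finset (Fin m)) (C : Fin m → T4 m) : Prop :=
  ∀ v : Fin m × Bool → Fin m × Bool → ℝ, (∀ q, Pur col (v q)) → 0 ≤ gmw (wt S v) S C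

/-- the sum of squares of decomposable two-forms -/
def Dq {κ : Type} [Fintype κ] (x y : κ → Fin m × Bool → ℝ) : T4 m := fun i j k l =>
  ∑ a, (x a i * y a j - x a j * y a i) * (x a k * y a l - x a l * y a k)

/-- one quarter of `Dq` before alternation -/
def Dq' {κ : Type} [Fintype κ] (x y : κ → Fin m × Bool → ℝ) : T4 m := fun i j k l =>
  ∑ a, (x a i * y a j) * (x a k * y a l)

theorem alt4_Dq' {κ : Type} [Fintype κ] (x y : κ → Fin m × Bool → ℝ) :
    alt4 (Dq' x y) = Dq x y := by
  funext i j k l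
  simp only [alt4, Dq', Dq, ← sum_sub_distrib, ← sum_add_distrib]
  refine sum_congr rfl fun a _ => ?_
  ring

/-- the covectors of a choice -/
def vc {κ : Type} (x y : κ → Fin m × Bool → ℝ) (c : Fin m → Option κ) (q : Fin m × Bool) :
    Fin m × Bool → ℝ :=
  (c q.1).elim (fun _ => 0) (fun a => if q.2 then y a else x a)

theorem gm_Dq' {κ : Type} [Fintype κ] (x y : κ → Fin m × Bool → ℝ)
    (S : Finset (Fin m)) (C : Fin m → T4 m) :
    gm (fun b => if b ∈ S then C b else Dq' x y) =
      ∑ c : Fin m → Option κ, (∏ b ∈ S, if (c b).isNone then (1 : ℝ) else 0) *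
        gmw (wt S (vc x y c)) S C := by
  classical
  have h1 : ∀ σ τ : Equiv.Perm (Fin m × Bool),
      ∏ b, (if b ∈ S then C b else Dq' x y) (σ (b, false)) (σ (b, true)) (τ (b, false))
        (τ (b, true)) =
      ∑ c : Fin m → Option κ, (∏ b ∈ S, if (c b).isNone then (1 : ℝ) else 0) *
        (wt S (vc x y c) σ * wt S (vc x y c) τ *
          ∏ b ∈ S, C b (σ (b, false)) (σ (b, true)) (τ (b, false)) (τ (b, true))) := by
    intro σ τ
    set t : Fin m → κ → ℝ := fun b a => (x a (σ (b, false)) * y a (σ (b, true))) *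
      (x a (τ (b, false)) * y a (τ (b, true))) with ht
    set t' : Fin m → Option κ → ℝ := fun b a =>
      a.elim (if b ∈ S then 1 else 0) (fun a => if b ∈ S then 0 else t b a) with ht'
    have e1 : ∏ b, (if b ∈ S then C b else Dq' x y) (σ (b, false)) (σ (b, true)) (τ (b, false))
        (τ (b, true)) = (∏ b, ∑ a, t' b a) *
          ∏ b ∈ S, C b (σ (b, false)) (σ (b, true)) (τ (b, false)) (τ (b, true)) := by
      rw [← Finset.prod_sdiff (Finset.subset_univ S)]
      have e2 : ∏ b ∈ S, (if b ∈ S then C b else Dq' x y) (σ (b, false)) (σ (b, true))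
          (τ (b, false)) (τ (b, true)) =
          ∏ b ∈ S, C b (σ (b, false)) (σ (b, true)) (τ (b, false)) (τ (b, true)) :=
        prod_congr rfl fun b hb => by rw [if_pos hb]
      have e3 : ∏ b ∈ univ \ S, (if b ∈ S then C b else Dq' x y) (σ (b, false)) (σ (b, true))
          (τ (b, false)) (τ (b, true)) = ∏ b, ∑ a, t' b a := by
        rw [← Finset.prod_sdiff (Finset.subset_univ S) (f := fun b => ∑ a, t' b a)]
        have e4 : ∏ b ∈ S, ∑ a, t' b a = 1 := by
          refine prod_eq_one fun b hb => ?_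
          rw [Fintype.sum_option]
          simp [ht', hb]
        rw [e4, mul_one]
        refine prod_congr rfl fun b hb => ?_
        have hb' : b ∉ S := (mem_sdiff.1 hb).2
        rw [if_neg hb', Fintype.sum_option]
        simp [ht', hb', Dq', ht]
      rw [e2, e3]
    rw [e1, Fintype.prod_sum, sum_mul]
    refine sum_congr rfl fun c _ => ?_
    have e5 : ∏ b, t' b (c b) = (∏ b ∈ S, if (c b).isNone then (1 : ℝ) else 0) *
        (wt S (vc x y c) σ * wt S (vc x y c) τ) := by
      rw [← Finset.prod_sdiff (Finset.subset_univ S), mul_comm]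
      congr 1
      · refine prod_congr rfl fun b hb => ?_
        cases hc : c b with
        | none => simp [ht', hb]
        | some a => simp [ht', hb]
      · unfold wt
        rw [← prod_mul_distrib]
        refine prod_congr rfl fun b hb => ?_
        have hb' : b ∉ S := (mem_sdiff.1 hb).2
        cases hc : c b with
        | none => simp [ht', hb', vc, hc]
        | some a => simp [ht', hb', vc, hc, ht]
    rw [e5]
    ring
  unfold gm gmw
  simp only [h1]
  have h2 : ∀ σ τ : Equiv.Perm (Fin m × Bool), sn σ * sn τ *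
      ∑ c : Fin m → Option κ, (∏ b ∈ S, if (c b).isNone then (1 : ℝ) else 0) *
        (wt S (vc x y c) σ * wt S (vc x y c) τ *
          ∏ b ∈ S, C b (σ (b, false)) (σ (b, true)) (τ (b, false)) (τ (b, true))) =
      ∑ c : Fin m → Option κ, (∏ b ∈ S, if (c b).isNone then (1 : ℝ) else 0) *
        (sn σ * sn τ * (wt S (vc x y c) σ * wt S (vc x y c) τ *
          ∏ b ∈ S, C b (σ (b, false)) (σ (b, true)) (τ (b, false)) (τ (b, true)))) := by
    intro σ τ
    rw [mul_sum]
    refine sum_congr rfl fun c _ => ?_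
    ring
  simp only [h2]
  rw [sum_congr rfl fun σ _ => Finset.sum_comm, Finset.sum_comm]
  refine sum_congr rfl fun c _ => ?_
  rw [mul_sum]
  refine sum_congr rfl fun σ _ => ?_
  rw [mul_sum]

/-- **Squares of decomposable forms outside `S`.** -/
theorem place_nonneg {ι : Type*} {col : Fin m × Bool → ι} {κ : Type} [Fintype κ]
    (hι : Nonempty ι) {x y : κ → Fin m × Bool → ℝ} (hx : ∀ a, Pur col (x a))
    (hy : ∀ a, Pur col (y a)) {S : Finset (Fin m)} {C : Fin m → T4 m} (h : Good col S C) :
    0 ≤ gm (fun b => if b ∈ S then C b else Dq x y) := by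
  classical
  have h1 := gm_alt (fun b => if b ∈ S then C b else Dq' x y) (univ \ S)
  have h2 : (fun b => if b ∈ univ \ S then alt4 (if b ∈ S then C b else Dq' x y) else
      (if b ∈ S then C b else Dq' x y)) = fun b => if b ∈ S then C b else Dq x y := by
    funext b
    by_cases hb : b ∈ S
    · simp [hb]
    · simp [hb, alt4_Dq']
  rw [h2] at h1
  rw [h1, gm_Dq']
  refine mul_nonneg (by positivity) (sum_nonneg fun c _ => mul_nonneg ?_ (h _ ?_))
  · refine prod_nonneg fun b _ => ?_
    split_ifs <;> norm_num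
  · intro q
    unfold vc
    cases hc : c q.1 with
    | none => exact ⟨hι.some, fun _ _ => rfl⟩
    | some a =>
      change Pur col (if q.2 = true then y a else x a)
      split_ifs
      · exact hy a
      · exact hx a

end Pool.Agent.Y519.HB
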