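import Pool.Agent.Y519.HB.Four

/-!
# Tensors living on blocks of indices
-/

set_option autoImplicit false

namespace Pool.Agent.Y519.HB

open Pool.Agent.W666.GB Pool.Agent.W669.HD Finset

/-- all the alternating sums of `P` are nonnegative -/
def Her {J : Type*} [Fintype J] (P : J → J → J → J → ℝ) : Prop :=
  ∀ (T : Type) [Fintype T] [DecidableEq T] (y : T × Bool → J → ℝ), 0 ≤ EE (fun _ : T => P) y

section split

variable {T J : Type} [Fintype T] [DecidableEq T] [Fintype J]

/-- the two kinds of slots -/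
def slotE (p : T → Prop) [DecidablePred p] :
    ({b // p b} × Bool) ⊕ ({b // ¬ p b} × Bool) ≃ T × Bool :=
  (Equiv.sumProdDistrib _ _ _).symm.trans ((Equiv.sumCompl p).prodCongr (Equiv.refl Bool))

theorem slotE_inl (p : T → Prop) [DecidablePred p] (b : {b // p b}) (β : Bool) :
    slotE p (Sum.inl (b, β)) = (b.1, β) := rfl

theorem slotE_inr (p : T → Prop) [DecidablePred p] (b : {b // ¬ p b}) (β : Bool) :
    slotE p (Sum.inr (b, β)) = (b.1, β) := rfl

/-- two permutations side by side -/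
def twoP (p : T → Prop) [DecidablePred p]
    (x : Equiv.Perm ({b // p b} × Bool) × Equiv.Perm ({b // ¬ p b} × Bool)) :
    Equiv.Perm (T × Bool) :=
  (slotE p).permCongr (Equiv.Perm.sumCongr x.1 x.2)

theorem twoP_inl (p : T → Prop) [DecidablePred p]
    (x : Equiv.Perm ({b // p b} × Bool) × Equiv.Perm ({b // ¬ p b} × Bool)) (b : {b // p b})
    (β : Bool) : twoP p x (b.1, β) = ((x.1 (b, β)).1.1, (x.1 (b, β)).2) := by
  unfold twoP
  rw [Equiv.permCongr_apply, ← slotE_inl p b β, Equiv.symm_apply_apply]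
  rfl

theorem twoP_inr (p : T → Prop) [DecidablePred p]
    (x : Equiv.Perm ({b // p b} × Bool) × Equiv.Perm ({b // ¬ p b} × Bool)) (b : {b // ¬ p b})
    (β : Bool) : twoP p x (b.1, β) = ((x.2 (b, β)).1.1, (x.2 (b, β)).2) := by
  unfold twoP
  rw [Equiv.permCongr_apply, ← slotE_inr p b β, Equiv.symm_apply_apply]
  rfl

theorem sn_twoP (p : T → Prop) [DecidablePred p]
    (x : Equiv.Perm ({b // p b} × Bool) × Equiv.Perm ({b // ¬ p b} × Bool)) :
    sn (twoP p x) = sn x.1 * sn x.2 := by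
  unfold sn twoP
  rw [Equiv.Perm.sign_permCongr, Equiv.Perm.sign_sumCongr]
  push_cast
  ring

theorem twoP_injective (p : T → Prop) [DecidablePred p] : Function.Injective (twoP p) := by
  intro x x' h
  have h1 := (slotE p).permCongr.injective h
  have h2 : Equiv.Perm.sumCongrHom _ _ x = Equiv.Perm.sumCongrHom _ _ x' := h1
  exact Equiv.Perm.sumCongrHom_injective h2

theorem twoP_range (p : T → Prop) [DecidablePred p] (π : Equiv.Perm (T × Bool))
    (h : ∀ q, p q.1 → p (π q).1) : π ∈ Set.range (twoP p) := by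
  have h1 : ((slotE p).symm.permCongr π) ∈ (Equiv.Perm.sumCongrHom ({b // p b} × Bool)
      ({b // ¬ p b} × Bool)).range := by
    apply Equiv.Perm.mem_sumCongrHom_range_of_perm_mapsTo_inl
    rintro _ ⟨⟨b, β⟩, rfl⟩
    rw [Equiv.permCongr_apply, Equiv.symm_symm, slotE_inl]
    have h2 := h (b.1, β) b.2
    refine ⟨(⟨(π (b.1, β)).1, h2⟩, (π (b.1, β)).2), ?_⟩
    rw [Equiv.eq_symm_apply, slotE_inl]
  obtain ⟨x, hx⟩ := h1
  refine ⟨x, ?_⟩
  have h3 : Equiv.Perm.sumCongr x.1 x.2 = (slotE p).symm.permCongr π := hx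
  unfold twoP
  rw [h3]
  ext q : 1
  simp [Equiv.permCongr_apply]

theorem EE_split (p : T → Prop) [DecidablePred p] (C : T → J → J → J → J → ℝ)
    (y : T × Bool → J → ℝ)
    (h : ∀ π π' : Equiv.Perm (T × Bool), (∏ b : T, ev4 (C b) (y (π (b, false)))
      (y (π (b, true))) (y (π' (b, false))) (y (π' (b, true)))) ≠ 0 →
      (∀ q, p q.1 → p (π q).1) ∧ (∀ q, p q.1 → p (π' q).1)) :
    EE C y = EE (fun b : {b // p b} => C b) (fun q => y (q.1, q.2)) *
      EE (fun b : {b // ¬ p b} => C b) (fun q => y (q.1, q.2)) := by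
  classical
  symm
  unfold EE
  rw [← Fintype.sum_prod_type', ← Fintype.sum_prod_type', ← Fintype.sum_prod_type',
    Fintype.sum_mul_sum, ← Fintype.sum_prod_type']
  rw [← (Equiv.prodProdProdComm (Equiv.Perm ({b // p b} × Bool))
    (Equiv.Perm ({b // ¬ p b} × Bool)) (Equiv.Perm ({b // p b} × Bool))
    (Equiv.Perm ({b // ¬ p b} × Bool))).sum_comp]
  refine Fintype.sum_of_injective (Prod.map (twoP p) (twoP p))
    ((twoP_injective p).prodMap (twoP_injective p)) _ _ ?_ ?_
  · rintro ⟨π, π'⟩ hz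
    by_contra hne
    have h1 := right_ne_zero_of_mul hne
    obtain ⟨h2, h3⟩ := h π π' h1
    obtain ⟨x, hx⟩ := twoP_range p π h2
    obtain ⟨x', hx'⟩ := twoP_range p π' h3
    exact hz ⟨(x, x'), by simp [hx, hx']⟩
  · rintro ⟨x, x'⟩
    simp only [Prod.map_apply, sn_twoP, Equiv.prodProdProdComm_apply]
    rw [← Fintype.prod_subtype_mul_prod_subtype p (fun b => ev4 (C b)
      (y (twoP p x (b, false))) (y (twoP p x (b, true))) (y (twoP p x' (b, false)))
      (y (twoP p x' (b, true))))]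
    simp only [twoP_inl, twoP_inr]
    ring

theorem EE_perm (C : T → J → J → J → J → ℝ) (y : T × Bool → J → ℝ)
    (π₀ : Equiv.Perm (T × Bool)) : EE C (fun q => y (π₀ q)) = EE C y := by
  unfold EE
  rw [← Equiv.sum_comp (Equiv.mulLeft π₀) (fun π => ∑ π' : Equiv.Perm (T × Bool), sn π * sn π' *
    ∏ b : T, ev4 (C b) (y (π (b, false))) (y (π (b, true))) (y (π' (b, false))) (y (π' (b, true))))]
  refine sum_congr rfl fun π _ => ?_
  rw [← Equiv.sum_comp (Equiv.mulLeft π₀) (fun π' => sn ((Equiv.mulLeft π₀) π) * sn π' *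
    ∏ b : T, ev4 (C b) (y ((Equiv.mulLeft π₀) π (b, false))) (y ((Equiv.mulLeft π₀) π (b, true)))
      (y (π' (b, false))) (y (π' (b, true))))]
  refine sum_congr rfl fun π' _ => ?_
  simp only [Equiv.coe_mulLeft, sn_mul, Equiv.Perm.mul_apply]
  have := sn_mul_self π₀
  linear_combination (- (sn π * sn π' *
    ∏ b : T, ev4 (C b) (y (π₀ (π (b, false)))) (y (π₀ (π (b, true)))) (y (π₀ (π' (b, false))))
      (y (π₀ (π' (b, true)))))) * this

theorem EE_sum {ι : Type} [Fintype ι] [DecidableEq ι] (P : ι → J → J → J → J → ℝ)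
    (y : T × Bool → J → ℝ) : EE (fun _ : T => (fun i j k l => ∑ a, P a i j k l)) y =
      ∑ f : T → ι, EE (fun b => P (f b)) y := by
  classical
  have h1 : ∀ x y z w : J → ℝ, ev4 (fun i j k l => ∑ a, P a i j k l) x y z w =
      ∑ a, ev4 (P a) x y z w := by
    intro x y z w
    unfold ev4
    rw [sum_comm]
    refine sum_congr rfl fun q _ => ?_
    rw [mul_sum]
  unfold EE
  rw [sum_comm]
  simp only [h1, Fintype.prod_sum, mul_sum]
  rw [sum_comm]
  have h2 : ∀ π : Equiv.Perm (T × Bool), ∑ π' : Equiv.Perm (T × Bool), ∑ f : T → ι,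
      sn π * sn π' * ∏ b, ev4 (P (f b)) (y (π (b, false))) (y (π (b, true))) (y (π' (b, false)))
        (y (π' (b, true))) = ∑ f : T → ι, ∑ π' : Equiv.Perm (T × Bool),
      sn π * sn π' * ∏ b, ev4 (P (f b)) (y (π (b, false))) (y (π (b, true))) (y (π' (b, false)))
        (y (π' (b, true))) := fun π => sum_comm
  rw [sum_congr rfl fun π _ => h2 π, sum_comm]

end split

section supp

variable {J ι : Type} [Fintype J] {col : J → ι}

theorem ev4_zero1 {P : J → J → J → J → ℝ} {i : ι} (hs : ∀ j a b c, col j ≠ i → P j a b c = 0)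
    {x : J → ℝ} (hx : ∀ j, col j = i → x j = 0) (y z w : J → ℝ) : ev4 P x y z w = 0 := by
  unfold ev4
  refine sum_eq_zero fun p _ => ?_
  by_cases h : col p.1.1 = i
  · rw [hx _ h]; ring
  · rw [hs _ _ _ _ h]; ring

theorem ev4_zero2 {P : J → J → J → J → ℝ} (hC : Cu P) {i : ι}
    (hs : ∀ j a b c, col j ≠ i → P j a b c = 0)
    {x : J → ℝ} (hx : ∀ j, col j = i → x j = 0) (y z w : J → ℝ) : ev4 P y x z w = 0 := by
  rw [ev4_a12 hC, ev4_zero1 hs hx, neg_zero]

theorem ev4_zero3 {P : J → J → J → J → ℝ} (hC : Cu P) {i : ι}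
    (hs : ∀ j a b c, col j ≠ i → P j a b c = 0)
    {x : J → ℝ} (hx : ∀ j, col j = i → x j = 0) (y z w : J → ℝ) : ev4 P y z x w = 0 := by
  rw [← ev4_pair hC, ev4_zero1 hs hx]

theorem ev4_zero4 {P : J → J → J → J → ℝ} (hC : Cu P) {i : ι}
    (hs : ∀ j a b c, col j ≠ i → P j a b c = 0)
    {x : J → ℝ} (hx : ∀ j, col j = i → x j = 0) (y z w : J → ℝ) : ev4 P y z w x = 0 := by
  rw [← ev4_pair hC, ev4_zero2 hC hs hx]

/-- a nonvanishing factor shows the colours of its four vectors -/
theorem colours {P : J → J → J → J → ℝ} (hC : Cu P) {i : ι}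
    (hs : ∀ j a b c, col j ≠ i → P j a b c = 0) {x y z w : J → ℝ} (h : ev4 P x y z w ≠ 0) :
    (∃ j, col j = i ∧ x j ≠ 0) ∧ (∃ j, col j = i ∧ y j ≠ 0) ∧ (∃ j, col j = i ∧ z j ≠ 0) ∧
      (∃ j, col j = i ∧ w j ≠ 0) := by
  refine ⟨?_, ?_, ?_, ?_⟩
  · by_contra hc
    push Not at hc
    exact h (ev4_zero1 hs hc _ _ _)
  · by_contra hc
    push Not at hc
    exact h (ev4_zero2 hC hs hc _ _ _)
  · by_contra hc
    push Not at hc
    exact h (ev4_zero3 hC hs hc _ _ _)
  · by_contra hc
    push Not at hc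
    exact h (ev4_zero4 hC hs hc _ _ _)

theorem EE_aligned [DecidableEq ι] (P : ι → J → J → J → J → ℝ)
    (hs : ∀ i j a b c, col j ≠ i → P i j a b c = 0) (hC : ∀ i, Cu (P i)) (hH : ∀ i, Her (P i))
    (n : ℕ) : ∀ (T : Type) [Fintype T] [DecidableEq T], Fintype.card T = n → ∀ (f : T → ι)
      (y : T × Bool → J → ℝ), (∀ q j, col j ≠ f q.1 → y q j = 0) →
      0 ≤ EE (fun b => P (f b)) y := by
  induction n using Nat.strong_induction_on with
  | _ n ih =>
    intro T _ _ hn f y hy
    rcases isEmpty_or_nonempty T with hT | hT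
    · have h1 := hH
      unfold EE
      refine sum_nonneg fun π _ => sum_nonneg fun π' _ => ?_
      have : ∀ π : Equiv.Perm (T × Bool), sn π = 1 := by
        intro π
        rw [Subsingleton.elim π 1]
        simp [sn]
      rw [this, this]
      simp
    · obtain ⟨b₀⟩ := hT
      have hsame : ∀ π π' : Equiv.Perm (T × Bool), (∏ b : T, ev4 (P (f b)) (y (π (b, false)))
          (y (π (b, true))) (y (π' (b, false))) (y (π' (b, true)))) ≠ 0 →
          (∀ q, f (π q).1 = f q.1) ∧ (∀ q, f (π' q).1 = f q.1) := by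
        intro π π' hne
        have hb : ∀ b, ev4 (P (f b)) (y (π (b, false))) (y (π (b, true))) (y (π' (b, false)))
            (y (π' (b, true))) ≠ 0 := fun b => (Finset.prod_ne_zero_iff.1 hne) b (mem_univ b)
        have key : ∀ (q : T × Bool) (b : T), (∃ j, col j = f b ∧ y q j ≠ 0) → f q.1 = f b := by
          rintro q b ⟨j, hj, hne⟩
          by_contra hc
          exact hne (hy q j (by rw [hj]; exact Ne.symm hc))
        constructor
        · rintro ⟨b, β⟩
          obtain ⟨h1, h2, -, -⟩ := colours (hC _) (hs _) (hb b)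
          cases β
          · exact key _ _ h1
          · exact key _ _ h2
        · rintro ⟨b, β⟩
          obtain ⟨-, -, h1, h2⟩ := colours (hC _) (hs _) (hb b)
          cases β
          · exact key _ _ h1
          · exact key _ _ h2
      rw [EE_split (fun b => f b = f b₀) (fun b => P (f b)) y (by
        intro π π' hne
        obtain ⟨h1, h2⟩ := hsame π π' hne
        exact ⟨fun q hq => (h1 q).trans hq, fun q hq => (h2 q).trans hq⟩)]
      refine mul_nonneg ?_ ?_
      · have e : (fun b : {b // f b = f b₀} => P (f b)) = fun _ => P (f b₀) := by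
          funext b
          rw [b.2]
        rw [e]
        exact hH _ _ _
      · refine ih (Fintype.card {b // ¬ f b = f b₀}) ?_ {b // ¬ f b = f b₀} rfl
          (fun b => f b) _ ?_
        · rw [← hn]
          exact Fintype.card_subtype_lt (x := b₀) (by simp)
        · intro q j hj
          exact hy (q.1, q.2) j hj

/-- pure vectors -/
theorem EE_pure [DecidableEq ι] (P : ι → J → J → J → J → ℝ)
    (hs : ∀ i j a b c, col j ≠ i → P i j a b c = 0) (hC : ∀ i, Cu (P i)) (hH : ∀ i, Her (P i))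
    {T : Type} [Fintype T] [DecidableEq T] (f : T → ι) (y : T × Bool → J → ℝ)
    (hy : ∀ q, Pur col (y q)) : 0 ≤ EE (fun b => P (f b)) y := by
  by_cases hz : ∀ π π' : Equiv.Perm (T × Bool), (∏ b : T, ev4 (P (f b)) (y (π (b, false)))
      (y (π (b, true))) (y (π' (b, false))) (y (π' (b, true)))) = 0
  · unfold EE
    simp [hz]
  · push Not at hz
    obtain ⟨π, π', hne⟩ := hz
    rw [← EE_perm (fun b => P (f b)) y π]
    refine EE_aligned P hs hC hH _ T rfl f _ ?_
    have hb : ∀ b, ev4 (P (f b)) (y (π (b, false))) (y (π (b, true))) (y (π' (b, false)))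
        (y (π' (b, true))) ≠ 0 := fun b => (Finset.prod_ne_zero_iff.1 hne) b (mem_univ b)
    have key : ∀ (q : T × Bool) (b : T), (∃ j, col j = f b ∧ y q j ≠ 0) →
        ∀ j, col j ≠ f b → y q j = 0 := by
      rintro q b ⟨j, hj, hne⟩ j' hj'
      obtain ⟨i, hi⟩ := hy q
      have h1 : i = f b := by
        by_contra hc
        exact hne (hi j (by rw [hj]; exact Ne.symm hc))
      exact hi j' (by rw [h1]; exact hj')
    rintro ⟨b, β⟩ j hj
    obtain ⟨h1, h2, -, -⟩ := colours (hC _) (hs _) (hb b)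
    cases β
    · exact key _ _ h1 j hj
    · exact key _ _ h2 j hj

end supp

section blocks

variable {m : ℕ} {ι : Type} [Fintype ι] [DecidableEq ι] {col : Fin m × Bool → ι}

/-- **Blocks.** -/
theorem good_blk (P : ι → T4 m) (hs : ∀ i j a b c, col j ≠ i → P i j a b c = 0)
    (hC : ∀ i, Cu (P i)) (hH : ∀ i, Her (P i)) (S : Finset (Fin m)) :
    Good col S (fun _ => (fun i j k l => ∑ a, P a i j k l)) := by
  intro v hv
  obtain ⟨c, y, hy, hgen⟩ := gen col S v hv
  rw [hgen]
  refine mul_nonneg (sq_nonneg _) ?_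
  rw [EE_sum P y]
  refine sum_nonneg fun f _ => EE_pure P hs hC hH f y hy

theorem blk_comp (P : ι → T4 m) (hs : ∀ i j a b c, col j ≠ i → P i j a b c = 0)
    (hC : ∀ i, Cu (P i)) (hH : ∀ i, Her (P i)) (hι : Nonempty ι) {κ : Type} [Fintype κ]
    {x y : κ → Fin m × Bool → ℝ} (hx : ∀ a, Pur col (x a)) (hy : ∀ a, Pur col (y a)) :
    gm (fun _ : Fin m => Dq x y) ≤
      gm (fun _ : Fin m => (fun i j k l => (∑ a, P a i j k l) + Dq x y i j k l : T4 m)) := by
  classical
  rw [gm_add (m := m) (fun i j k l => ∑ a, P a i j k l) (Dq x y)]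
  have hpos : ∀ S ∈ (univ : Finset (Fin m)).powerset,
      0 ≤ mix (fun i j k l => ∑ a, P a i j k l) (Dq x y) S := fun S _ =>
    place_nonneg hι hx hy (C := fun _ => (fun i j k l => ∑ a, P a i j k l : T4 m))
      (good_blk P hs hC hH S)
  have h1 := Finset.single_le_sum hpos (Finset.empty_mem_powerset _)
  rwa [mix_empty] at h1

end blocks

end Pool.Agent.Y519.HB
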