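import Pool.Agent.Y519.HB.Hopf

/-!
# The block theorem and the monotonicity theorem
-/

set_option autoImplicit false

namespace Pool.Agent.Y519.HB

open Pool.Agent.W666.GB Pool.Agent.W669.HD Finset

variable {V : Type} [NormedAddCommGroup V] [InnerProductSpace ℝ V]

theorem adapted {m : ℕ} {ι : Type} [Fintype ι] [DecidableEq ι]
    (e : OrthonormalBasis (Fin m × Bool) ℝ V) (U : ι → Submodule ℝ V)
    (hU : ∀ i j, i ≠ j → ∀ x ∈ U i, ∀ y ∈ U j, inner ℝ x y = 0) (hT : ⨆ i, U i = ⊤) :
    ∃ (e' : OrthonormalBasis (Fin m × Bool) ℝ V) (col : Fin m × Bool → ι),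
      ∀ j, e' j ∈ U (col j) := by
  classical
  have hfin : FiniteDimensional ℝ V := Module.Finite.of_basis e.toBasis
  have hO : OrthogonalFamily ℝ (fun i => U i) fun i => (U i).subtypeₗᵢ := by
    intro i j hij x y
    exact hU i j hij x x.2 y y.2
  have hI : DirectSum.IsInternal U := by
    rw [hO.isInternal_iff, hT, Submodule.top_orthogonal_eq_bot]
  have hn : Module.finrank ℝ V = Fintype.card (Fin m × Bool) := by
    rw [Module.finrank_eq_card_basis e.toBasis]
  obtain ⟨g⟩ : Nonempty (Fin (Fintype.card (Fin m × Bool)) ≃ Fin m × Bool) :=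
    ⟨(Fintype.equivFin _).symm⟩
  refine ⟨(hI.subordinateOrthonormalBasis hn hO).reindex g,
    fun j => hI.subordinateOrthonormalBasisIndex hn (g.symm j) hO, fun j => ?_⟩
  rw [OrthonormalBasis.reindex_apply]
  exact hI.subordinateOrthonormalBasis_subordinate hn (g.symm j) hO

theorem const_eq (m : ℕ) (δ : ℝ) : roundGB m δ = 1 / ((8 * Real.pi) ^ m * m.factorial) *
    (2 ^ m * (δ ^ m * (2 * m).factorial)) := by
  have hπ := Real.pi_pos
  unfold roundGB
  have : (8 * Real.pi) ^ m = 2 ^ m * (4 * Real.pi) ^ m := by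
    rw [← mul_pow]; congr 1; ring
  rw [this]
  field_simp

theorem cu_cp {m : ℕ} (e : OrthonormalBasis (Fin m × Bool) ℝ V) {R : V → V → V → V → ℝ}
    (hR : AlgCurv R) : Cu (cp e (negT R)) where
  a12 i j k l := by simp only [cp, negT]; rw [hR.anti]
  pair i j k l := by simp only [cp, negT]; rw [hR.pair]
  bia i j k l := by
    simp only [cp, negT]
    have := hR.bianchi (e i) (e j) (e k) (e l)
    linarith

/-- **Blocks.** -/
theorem block_bound {m : ℕ} (e : OrthonormalBasis (Fin m × Bool) ℝ V) {δ : ℝ} (hδ : 0 ≤ δ)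
    {ι : Type} [Fintype ι] [DecidableEq ι] {κ : Type} [Fintype κ] {U : ι → Submodule ℝ V}
    {S : ι → V → V → V → V → ℝ} {x y : κ → V} {p q : κ → ι}
    (hU : ∀ i j, i ≠ j → ∀ x ∈ U i, ∀ y ∈ U j, inner ℝ x y = 0) (hT : ⨆ i, U i = ⊤)
    (hS : ∀ i, AlgCurv (S i)) (hL : ∀ i, LivesOn (U i) (S i)) (hH : ∀ i, HopfOn (U i) (S i))
    (hx : ∀ k, x k ∈ U (p k)) (hy : ∀ k, y k ∈ U (q k)) {R : V → V → V → V → ℝ}
    (hRc : AlgCurv R)
    (hR : ∀ a b c d, R a b c d = (∑ i, S i a b c d) - (∑ k, sqDec (x k) (y k) a b c d) -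
      δ * unitT a b c d) :
    roundGB m δ ≤ (-1) ^ m * gbc e R := by
  classical
  obtain ⟨e', col, hcol⟩ := adapted e U hU hT
  rcases Nat.eq_zero_or_pos m with hm | hm
  · subst hm
    simp [roundGB, gbc]
  have hι : Nonempty ι := ⟨col (⟨0, hm⟩, false)⟩
  rw [Pool.Agent.W688.HD.bas m V e e' R hRc, gbc_eq]
  have hπ := Real.pi_pos
  have hc : 0 < 1 / ((8 * Real.pi) ^ m * (m.factorial : ℝ)) := by positivity
  rw [const_eq]
  refine mul_le_mul_of_nonneg_left ?_ hc.le
  rw [← unit_gm]
  have hD : ∀ _ : Fin m, cp e' (negT R) = fun i j k l =>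
      (∑ a, cp e' (negT (S a)) i j k l) +
        Dq (Sum.elim (fun k i => inner ℝ (x k) (e' i))
          (fun p : (Fin m × Bool) × (Fin m × Bool) => fun i =>
            Real.sqrt (δ / 2) * (if i = p.1 then 1 else 0)))
          (Sum.elim (fun k i => inner ℝ (y k) (e' i))
            (fun p j => if j = p.2 then 1 else 0)) i j k l := by
    intro _
    funext i j k l
    have hu := congrFun (congrFun (congrFun (congrFun (unit_Dq (m := m) hδ) i) j) k) l
    simp only [Dq] at hu
    simp only [cp, negT, hR, Dq, Fintype.sum_sum_type, Sum.elim_inl, Sum.elim_inr, ← hu,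
      cp_unit, sqDec, sum_neg_distrib]
    ring
  rw [show (fun _ : Fin m => cp e' (negT R)) = _ from funext hD]
  have hpur : ∀ (i : ι) (z : V), z ∈ U i → ∀ j, col j ≠ i → inner ℝ z (e' j) = 0 := by
    intro i z hz j hj
    exact hU i (col j) (Ne.symm hj) z hz (e' j) (hcol j)
  have hsup : ∀ i j a b c, col j ≠ i → cp e' (negT (S i)) j a b c = 0 := by
    intro i j a b c hj
    simp only [cp, negT]
    rw [hL i (e' j), neg_zero]
    rw [Submodule.mem_orthogonal]
    intro u hu
    exact hpur i u hu j hj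
  refine le_trans ?_ (blk_comp (col := col) (fun a => cp e' (negT (S a))) hsup
    (fun i => cu_cp e' (hS i)) (fun i => her_of_hopf e' (hS i) (hL i) (hH i)) hι ?_ ?_)
  · rw [unit_Dq hδ]
    exact dq_ge _ _ _ _
  · rintro (k | ⟨a, b⟩)
    · exact ⟨p k, fun j hj => hpur _ _ (hx k) j hj⟩
    · refine ⟨col a, fun j hj => ?_⟩
      simp only [Sum.elim_inr]
      rw [if_neg (fun h => hj (by rw [h])), mul_zero]
  · rintro (k | ⟨a, b⟩)
    · exact ⟨q k, fun j hj => hpur _ _ (hy k) j hj⟩
    · refine ⟨col b, fun j hj => ?_⟩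
      simp only [Sum.elim_inr]
      rw [if_neg (fun h => hj (by rw [h]))]

/-- **Monotonicity.** -/
theorem mono_bound {m : ℕ} (hm : 0 < m) (e : OrthonormalBasis (Fin m × Bool) ℝ V) {δ : ℝ}
    (hδ : 0 ≤ δ) {κ : Type} [Fintype κ] {x y : κ → V} {S : V → V → V → V → ℝ} (hS : AlgCurv S)
    (hH : ∀ k < m, ∀ (E : Submodule ℝ V) (e : OrthonormalBasis (Fin k × Bool) ℝ E),
      0 ≤ (-1) ^ k * gbc e (fun x y z w : E => S x y z w)) {R : V → V → V → V → ℝ}
    (hR : ∀ a b c d, R a b c d = S a b c d - (∑ k, sqDec (x k) (y k) a b c d) -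
      δ * unitT a b c d) :
    (-1) ^ m * gbc e S + roundGB m δ ≤ (-1) ^ m * gbc e R := by
  classical
  rw [gbc_eq, gbc_eq]
  have hπ := Real.pi_pos
  have hc : 0 < 1 / ((8 * Real.pi) ^ m * (m.factorial : ℝ)) := by positivity
  rw [const_eq, ← mul_add]
  refine mul_le_mul_of_nonneg_left ?_ hc.le
  rw [← unit_gm]
  obtain ⟨X, hX⟩ : ∃ X : κ ⊕ ((Fin m × Bool) × (Fin m × Bool)) → Fin m × Bool → ℝ,
    X = (Sum.elim (fun k i => inner ℝ (x k) (e i))
      (fun p : (Fin m × Bool) × (Fin m × Bool) => fun i =>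
        Real.sqrt (δ / 2) * (if i = p.1 then 1 else 0))) := ⟨_, rfl⟩
  obtain ⟨Y, hY⟩ : ∃ Y : κ ⊕ ((Fin m × Bool) × (Fin m × Bool)) → Fin m × Bool → ℝ,
    Y = (Sum.elim (fun k i => inner ℝ (y k) (e i))
      (fun p j => if j = p.2 then 1 else 0)) := ⟨_, rfl⟩
  have hD : ∀ _ : Fin m, cp e (negT R) = fun i j k l => cp e (negT S) i j k l +
      Dq X Y i j k l := by
    intro _
    funext i j k l
    have hu := congrFun (congrFun (congrFun (congrFun (unit_Dq (m := m) hδ) i) j) k) l
    simp only [Dq] at hu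
    simp only [cp, negT, hR, Dq, hX, hY, Fintype.sum_sum_type, Sum.elim_inl, Sum.elim_inr, ← hu,
      cp_unit, sqDec]
    ring
  rw [show (fun _ : Fin m => cp e (negT R)) = _ from funext hD,
    gm_add (m := m) (cp e (negT S)) (Dq X Y)]
  have hlow : gm (fun _ : Fin m => (fun i j k l => δ * unitCurv i j k l : T4 m)) ≤
      gm (fun _ : Fin m => Dq X Y) := by
    rw [unit_Dq hδ, hX, hY]
    exact dq_ge _ _ _ _
  have hpos : ∀ S' ∈ (univ : Finset (Fin m)).powerset, S' ≠ univ →
      0 ≤ mix (cp e (negT S)) (Dq X Y) S' := by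
    intro S' _ hne
    refine place_nonneg (col := fun _ : Fin m × Bool => ()) ⟨()⟩ (fun a => ⟨(), fun _ h => absurd rfl h⟩)
      (fun a => ⟨(), fun _ h => absurd rfl h⟩) (C := fun _ => cp e (negT S)) ?_
    intro v hv
    obtain ⟨c, z, -, hgen⟩ := gen _ S' v hv
    rw [hgen (fun _ => cp e (negT S))]
    refine mul_nonneg (sq_nonneg _) ?_
    refine EE_of_hopf e hS (U := ⊤) ?_ ?_ z
    · intro a ha y z w
      rw [Submodule.top_orthogonal_eq_bot, Submodule.mem_bot] at ha
      rw [ha]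
      have := hS.smul 0 0 y z w
      simpa using this
    · intro E _ ε
      refine hH _ ?_ E ε
      rw [Fintype.card_coe]
      have h1 := Finset.card_lt_univ_of_notMem (s := S') (x := (univ \ S').toList.head
        (by
          intro h
          rw [Finset.toList_eq_nil, Finset.sdiff_eq_empty_iff_subset] at h
          exact hne (Finset.univ_subset_iff.1 h))) (by
        have h2 := List.head_mem (l := (univ \ S').toList) (by
          intro h
          rw [Finset.toList_eq_nil, Finset.sdiff_eq_empty_iff_subset] at h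
          exact hne (Finset.univ_subset_iff.1 h))
        rw [Finset.mem_toList, mem_sdiff] at h2
        exact h2.2)
      rwa [Fintype.card_fin] at h1
  have hu : (univ : Finset (Fin m)) ∈ (univ : Finset (Fin m)).powerset :=
    Finset.mem_powerset.2 (Finset.Subset.refl _)
  have hmem : (∅ : Finset (Fin m)) ∈ (univ : Finset (Fin m)).powerset.erase univ := by
    rw [mem_erase]
    refine ⟨?_, Finset.empty_mem_powerset _⟩
    intro h
    have : (⟨0, hm⟩ : Fin m) ∈ (∅ : Finset (Fin m)) := by rw [h]; exact mem_univ _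
    exact absurd this (notMem_empty _)
  rw [← Finset.add_sum_erase _ _ hu]
  have hfull : mix (cp e (negT S)) (Dq X Y) univ = gm (fun _ : Fin m => cp e (negT S)) := by
    unfold mix
    simp only [Finset.mem_univ, if_true]
  rw [hfull]
  have h1 := Finset.single_le_sum (f := fun S' => mix (cp e (negT S)) (Dq X Y) S')
    (fun S' hS' => hpos S' (mem_of_mem_erase hS') (ne_of_mem_erase hS')) hmem
  rw [mix_empty] at h1
  linarith

end Pool.Agent.Y519.HB
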