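import Pool.Agent.W669.HD.Main

/-!
# The classes of curvature tensors

All tensors are functions `V → V → V → V → ℝ`; `AlgCurv R` says that `R` is an algebraic curvature
tensor (multilinear, with the symmetries and the first Bianchi identity), `R x y x y` is the
sectional curvature of an orthonormal pair `x, y`, `LivesOn W R` says that `R` vanishes as soon as
one argument is orthogonal to `W`, and `unitT` is the tensor of constant curvature one.
-/

set_option autoImplicit false

namespace Pool.Agent.Y519.HB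

open Pool.Agent.W666.GB Pool.Agent.W669.HD

variable {V : Type} [NormedAddCommGroup V] [InnerProductSpace ℝ V]

/-- The square of the decomposable two-form `x ∧ y`, as a curvature-like tensor. -/
noncomputable def sqDec (x y a b c d : V) : ℝ :=
  (inner ℝ x a * inner ℝ y b - inner ℝ x b * inner ℝ y a) *
    (inner ℝ x c * inner ℝ y d - inner ℝ x d * inner ℝ y c)

/-- On every even-dimensional subspace of `U`, the Gauss–Bonnet–Chern integrand of the restriction
of `R` has the sign of the Hopf conjecture. -/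
def HopfOn (U : Submodule ℝ V) (R : V → V → V → V → ℝ) : Prop :=
  ∀ (k : ℕ) (E : Submodule ℝ V), E ≤ U → ∀ e : OrthonormalBasis (Fin k × Bool) ℝ E,
    0 ≤ (-1) ^ k * gbc e (fun x y z w : E => R x y z w)

/-- The space is the orthogonal sum of the subspaces `U i`. -/
def OrthSum {r : ℕ} (U : Fin r → Submodule ℝ V) : Prop :=
  (∀ i j, i ≠ j → ∀ x ∈ U i, ∀ y ∈ U j, inner ℝ x y = 0) ∧ ⨆ i, U i = ⊤

/-- Blocks whose tensors have the Hopf sign on all their even-dimensional subspaces, minus squares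
`(x ∧ y)²` with `x` in one block and `y` in one block, minus `δ` times the unit tensor. -/
def HopfBlocks (δ : ℝ) (R : V → V → V → V → ℝ) : Prop :=
  ∃ (r : ℕ) (U : Fin r → Submodule ℝ V) (S : Fin r → V → V → V → V → ℝ) (n : ℕ)
    (x y : Fin n → V) (p q : Fin n → Fin r), OrthSum U ∧ (∀ i, AlgCurv (S i)) ∧
    (∀ i, LivesOn (U i) (S i)) ∧ (∀ i, HopfOn (U i) (S i)) ∧
    (∀ k, x k ∈ U (p k)) ∧ (∀ k, y k ∈ U (q k)) ∧
    ∀ a b c d, R a b c d = (∑ i, S i a b c d) - (∑ k, sqDec (x k) (y k) a b c d) -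
      δ * unitT a b c d

/-- Blocks carrying two tensors of nonpositive sectional curvature, each living on a subspace of
dimension at most five of its block, minus squares, minus `δ` times the unit tensor. -/
def FiveBlocks (δ : ℝ) (R : V → V → V → V → ℝ) : Prop :=
  ∃ (r : ℕ) (U W W' : Fin r → Submodule ℝ V) (S S' : Fin r → V → V → V → V → ℝ) (n : ℕ)
    (x y : Fin n → V) (p q : Fin n → Fin r), OrthSum U ∧ (∀ i, W i ≤ U i) ∧ (∀ i, W' i ≤ U i) ∧
    (∀ i, Module.finrank ℝ (W i) ≤ 5) ∧ (∀ i, Module.finrank ℝ (W' i) ≤ 5) ∧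
    (∀ i, AlgCurv (S i)) ∧ (∀ i, AlgCurv (S' i)) ∧
    (∀ i, LivesOn (W i) (S i)) ∧ (∀ i, LivesOn (W' i) (S' i)) ∧
    (∀ i a b, S i a b a b ≤ 0) ∧ (∀ i a b, S' i a b a b ≤ 0) ∧
    (∀ k, x k ∈ U (p k)) ∧ (∀ k, y k ∈ U (q k)) ∧
    ∀ a b c d, R a b c d = (∑ i, (S i a b c d + S' i a b c d)) -
      (∑ k, sqDec (x k) (y k) a b c d) - δ * unitT a b c d

/-- A symmetric bilinear form on `U`, extended by zero to the orthogonal complement of `U`. -/
structure SymForm (U : Submodule ℝ V) (h : V → V → ℝ) : Prop where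
  add : ∀ x x' y, h (x + x') y = h x y + h x' y
  smul : ∀ (t : ℝ) x y, h (t • x) y = t * h x y
  symm : ∀ x y, h x y = h y x
  lives : ∀ x ∈ Uᗮ, ∀ y, h x y = 0

/-- The Kulkarni–Nomizu product. -/
def kn (h k : V → V → ℝ) (x y z w : V) : ℝ :=
  h x z * k y w + h y w * k x z - h x w * k y z - h y z * k x w

/-- The tensors of multiply warped type with `R + δ · (unit tensor)` of nonpositive sectional
curvature: a tensor on each block and one Kulkarni–Nomizu product `h ∧ k` for each pair of blocks.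
Each block has dimension at most five, or its own tensor has the Hopf sign on all
even-dimensional subspaces. -/
def WarpType (δ : ℝ) (R : V → V → V → V → ℝ) : Prop :=
  ∃ (r : ℕ) (U : Fin r → Submodule ℝ V) (S : Fin r → V → V → V → V → ℝ)
    (h k : Fin r → Fin r → V → V → ℝ), OrthSum U ∧
    (∀ i, Module.finrank ℝ (U i) ≤ 5 ∨ HopfOn (U i) (S i)) ∧
    (∀ i, AlgCurv (S i)) ∧ (∀ i, LivesOn (U i) (S i)) ∧
    (∀ i j, SymForm (U i) (h i j)) ∧ (∀ i j, SymForm (U j) (k i j)) ∧
    (∀ a b c d, R a b c d + δ * unitT a b c d = (∑ i, S i a b c d) +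
      ∑ i, ∑ j, if i < j then kn (h i j) (k i j) a b c d else 0) ∧
    ∀ a b, R a b a b + δ * unitT a b a b ≤ 0

end Pool.Agent.Y519.HB
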