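import Pool.Agent.Y519.HB.Two

/-!
# Two pieces of dimension at most five with nonpositive sectional curvature
-/

set_option autoImplicit false

namespace Pool.Agent.Y519.HB

open Pool.Agent.W666.GB Pool.Agent.W669.HD Finset

/-- `R` is the sum of two curvature tensors of nonpositive sectional curvature, each living on a
subspace of dimension at most five, minus squares of decomposable two-forms, minus the tensor of
constant curvature `δ`. -/
def TwoFive {V : Type} [NormedAddCommGroup V] [InnerProductSpace ℝ V] (δ : ℝ)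
    (R : V → V → V → V → ℝ) : Prop :=
  ∃ (W₁ W₂ : Submodule ℝ V) (R₁ R₂ : V → V → V → V → ℝ) (n : ℕ) (x y : Fin n → V),
    Module.finrank ℝ W₁ ≤ 5 ∧ Module.finrank ℝ W₂ ≤ 5 ∧
    AlgCurv R₁ ∧ AlgCurv R₂ ∧ LivesOn W₁ R₁ ∧ LivesOn W₂ R₂ ∧
    (∀ u v, R₁ u v u v ≤ 0) ∧ (∀ u v, R₂ u v u v ≤ 0) ∧
    ∀ a b c d, R a b c d = R₁ a b c d + R₂ a b c d - (∑ k, sqDec (x k) (y k) a b c d) -
      δ * unitT a b c d

section point

variable {m : ℕ} {V : Type} [NormedAddCommGroup V] [InnerProductSpace ℝ V]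

/-- **Pointwise theorem.** -/
theorem two_five (e : OrthonormalBasis (Fin m × Bool) ℝ V) {δ : ℝ} (hδ : 0 ≤ δ)
    {R : V → V → V → V → ℝ} (h : TwoFive δ R) : roundGB m δ ≤ (-1) ^ m * gbc e R := by
  classical
  obtain ⟨W₁, W₂, R₁, R₂, n, x, y, hW₁, hW₂, h₁, h₂, l₁, l₂, s₁, s₂, hR⟩ := h
  obtain ⟨a₁, K₁, f₁, c₁, t₁⟩ := vec5' e h₁ hW₁ l₁ s₁
  obtain ⟨a₂, K₂, f₂, c₂, t₂⟩ := vec5' e h₂ hW₂ l₂ s₂
  rw [gbc_eq]
  have hπ := Real.pi_pos
  have hc : 0 < 1 / ((8 * Real.pi) ^ m * (m.factorial : ℝ)) := by positivity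
  have hr : roundGB m δ = 1 / ((8 * Real.pi) ^ m * m.factorial) *
      (2 ^ m * (δ ^ m * (2 * m).factorial)) := by
    unfold roundGB
    have : (8 * Real.pi) ^ m = 2 ^ m * (4 * Real.pi) ^ m := by
      rw [← mul_pow]; congr 1; ring
    rw [this]
    field_simp
  rw [hr]
  refine mul_le_mul_of_nonneg_left ?_ hc.le
  rw [← unit_gm]
  have hD : ∀ _ : Fin m, cp e (negT R) = fun i j k l =>
      (cp e (negT R₁) i j k l + cp e (negT R₂) i j k l) +
        Dq (Sum.elim (fun k i => inner ℝ (x k) (e i))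
          (fun p : (Fin m × Bool) × (Fin m × Bool) => fun i =>
            Real.sqrt (δ / 2) * (if i = p.1 then 1 else 0)))
          (Sum.elim (fun k i => inner ℝ (y k) (e i))
            (fun p j => if j = p.2 then 1 else 0)) i j k l := by
    intro _
    funext i j k l
    have hu := congrFun (congrFun (congrFun (congrFun (unit_Dq (m := m) hδ) i) j) k) l
    simp only [Dq] at hu
    simp only [cp, negT, hR, Dq, Fintype.sum_sum_type, Sum.elim_inl, Sum.elim_inr, ← hu,
      cp_unit, sqDec]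
    ring
  rw [show (fun _ : Fin m => cp e (negT R)) = _ from funext hD]
  refine le_trans ?_ (two_comp f₁ f₂ c₁ c₂ t₁ t₂ _ _)
  rw [unit_Dq hδ]
  exact dq_ge _ _ _ _

end point

/-- Integrated form. -/
theorem field_two {m : ℕ} {M : Type} [MeasurableSpace M] (μ : MeasureTheory.Measure M)
    (K : CurvField m M) (h : ∀ p, TwoFive 0 (K.R p)) :
    0 ≤ (-1) ^ m * ∫ p, K.gb p ∂μ := by
  rw [← MeasureTheory.integral_const_mul]
  refine MeasureTheory.integral_nonneg fun p => ?_
  exact (roundGB_nonneg le_rfl).trans (two_five (K.e p) le_rfl (h p))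

/-- Integrated form with a constant curvature part. -/
theorem field_twoδ {m : ℕ} {M : Type} [MeasurableSpace M] (μ : MeasureTheory.Measure M)
    [MeasureTheory.IsFiniteMeasure μ] (K : CurvField m M) (hi : MeasureTheory.Integrable K.gb μ)
    {δ : ℝ} (hδ : 0 ≤ δ) (h : ∀ p, TwoFive δ (K.R p)) :
    roundGB m δ * μ.real Set.univ ≤ (-1) ^ m * ∫ p, K.gb p ∂μ := by
  rw [← MeasureTheory.integral_const_mul]
  have h1 : roundGB m δ * μ.real Set.univ = ∫ _, roundGB m δ ∂μ := by
    rw [MeasureTheory.integral_const, smul_eq_mul, mul_comm]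
  rw [h1]
  refine MeasureTheory.integral_mono (MeasureTheory.integrable_const _) (hi.const_mul _) fun p => ?_
  exact two_five (K.e p) hδ (h p)

end Pool.Agent.Y519.HB
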