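import Pool.Agent.Y519.HB.Alt
import Pool.Agent.W155.HD.K4
import Pool.Agent.W140.HD.SQ4
import Pool.Agent.W696.HD.VAN5

/-!
# At most two places with a tensor of nonnegative sectional values
-/

set_option autoImplicit false

namespace Pool.Agent.Y519.HB

open Pool.Agent.W666.GB Pool.Agent.W669.HD Finset

/-- symmetries of curvature tensors -/
structure Cu {J : Type*} (P : J → J → J → J → ℝ) : Prop where
  a12 : ∀ i j k l, P j i k l = - P i j k l
  pair : ∀ i j k l, P k l i j = P i j k l
  bia : ∀ i j k l, P i j k l + P j k i l + P k i j l = 0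

/-- nonnegative sectional values -/
def Se {J : Type*} [Fintype J] (P : J → J → J → J → ℝ) : Prop :=
  ∀ x y : J → ℝ, 0 ≤ ev4 P x y x y

section ev

variable {J : Type*} [Fintype J] {T : Type*} [Fintype T]

theorem ev4_eq (P : J → J → J → J → ℝ) (x y z w : J → ℝ) :
    ev4 P x y z w = ∑ i, ∑ j, ∑ k, ∑ l, x i * y j * z k * w l * P i j k l := by
  unfold ev4
  rw [Fintype.sum_prod_type, Fintype.sum_prod_type]
  refine sum_congr rfl fun i _ => sum_congr rfl fun j _ => ?_
  rw [Fintype.sum_prod_type]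

theorem ev4_sum1 (P : J → J → J → J → ℝ) (a : T → ℝ) (v : T → J → ℝ) (y z w : J → ℝ) :
    ev4 P (fun j => ∑ p, a p * v p j) y z w = ∑ p, a p * ev4 P (v p) y z w := by
  unfold ev4
  simp only [mul_sum]
  rw [sum_comm]
  refine sum_congr rfl fun q _ => ?_
  simp only [sum_mul]
  refine sum_congr rfl fun p _ => ?_
  ring

theorem ev4_a12 {P : J → J → J → J → ℝ} (h : Cu P) (x y z w : J → ℝ) :
    ev4 P y x z w = - ev4 P x y z w := by
  rw [ev4_eq, ev4_eq, sum_comm, ← sum_neg_distrib]
  refine sum_congr rfl fun i _ => ?_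
  rw [← sum_neg_distrib]
  refine sum_congr rfl fun j _ => ?_
  rw [← sum_neg_distrib]
  refine sum_congr rfl fun k _ => ?_
  rw [← sum_neg_distrib]
  refine sum_congr rfl fun l _ => ?_
  rw [h.a12]
  ring

theorem ev4_pair {P : J → J → J → J → ℝ} (h : Cu P) (x y z w : J → ℝ) :
    ev4 P z w x y = ev4 P x y z w := by
  unfold ev4
  rw [← (Equiv.prodComm (J × J) (J × J)).sum_comp]
  refine sum_congr rfl fun p _ => ?_
  change z p.2.1 * w p.2.2 * x p.1.1 * y p.1.2 * P p.2.1 p.2.2 p.1.1 p.1.2 = _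
  rw [h.pair]
  ring

theorem ev4_bia {P : J → J → J → J → ℝ} (h : Cu P) (x y z w : J → ℝ) :
    ev4 P x y z w + ev4 P y z x w + ev4 P z x y w = 0 := by
  have e1 : ev4 P y z x w = ∑ i, ∑ j, ∑ k, ∑ l, x i * y j * z k * w l * P j k i l := by
    rw [ev4_eq]
    have h1 : ∀ j k, ∑ i, ∑ l, y j * z k * x i * w l * P j k i l =
      ∑ i, ∑ l, x i * y j * z k * w l * P j k i l := fun j k =>
        sum_congr rfl fun i _ => sum_congr rfl fun l _ => by ring
    simp only [h1]
    simp only [← Fintype.sum_prod_type']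
    refine Fintype.sum_equiv ⟨fun x => (x.2.2.1, x.1, x.2.1, x.2.2.2),
      fun x => (x.2.1, x.2.2.1, x.1, x.2.2.2), fun _ => rfl, fun _ => rfl⟩ _ _ ?_
    intro x
    rfl
  have e2 : ev4 P z x y w = ∑ i, ∑ j, ∑ k, ∑ l, x i * y j * z k * w l * P k i j l := by
    rw [ev4_eq]
    have h1 : ∀ k i, ∑ j, ∑ l, z k * x i * y j * w l * P k i j l =
      ∑ j, ∑ l, x i * y j * z k * w l * P k i j l := fun k i =>
        sum_congr rfl fun j _ => sum_congr rfl fun l _ => by ring
    simp only [h1]
    simp only [← Fintype.sum_prod_type']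
    refine Fintype.sum_equiv ⟨fun x => (x.2.1, x.2.2.1, x.1, x.2.2.2),
      fun x => (x.2.2.1, x.1, x.2.1, x.2.2.2), fun _ => rfl, fun _ => rfl⟩ _ _ ?_
    intro x
    rfl
  rw [ev4_eq, e1, e2]
  simp only [← sum_add_distrib]
  refine sum_eq_zero fun i _ => sum_eq_zero fun j _ => sum_eq_zero fun k _ =>
    sum_eq_zero fun l _ => ?_
  have := h.bia i j k l
  linear_combination x i * y j * z k * w l * this

/-- components with respect to a family of vectors -/
noncomputable def pul (P : J → J → J → J → ℝ) (v : T → J → ℝ) (p q r s : T) : ℝ :=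
  ev4 P (v p) (v q) (v r) (v s)

theorem cu_pul {P : J → J → J → J → ℝ} (h : Cu P) (v : T → J → ℝ) : Cu (pul P v) where
  a12 _ _ _ _ := ev4_a12 h _ _ _ _
  pair _ _ _ _ := ev4_pair h _ _ _ _
  bia _ _ _ _ := ev4_bia h _ _ _ _

theorem ev4_pul {P : J → J → J → J → ℝ} (h : Cu P) (v : T → J → ℝ) (x y z w : T → ℝ) :
    ev4 (pul P v) x y z w = ev4 P (fun j => ∑ p, x p * v p j) (fun j => ∑ p, y p * v p j)
      (fun j => ∑ p, z p * v p j) (fun j => ∑ p, w p * v p j) := by
  have s2 : ∀ (a b c : J → ℝ) (w : T → ℝ), ev4 P a (fun j => ∑ p, w p * v p j) b c =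
      ∑ p, w p * ev4 P a (v p) b c := by
    intro a b c w
    rw [ev4_a12 h, ev4_sum1, ← sum_neg_distrib]
    refine sum_congr rfl fun p _ => ?_
    rw [ev4_a12 h a (v p)]
    ring
  have s3 : ∀ (a b c : J → ℝ) (w : T → ℝ), ev4 P a b (fun j => ∑ p, w p * v p j) c =
      ∑ p, w p * ev4 P a b (v p) c := by
    intro a b c w
    rw [← ev4_pair h, ev4_sum1]
    refine sum_congr rfl fun p _ => ?_
    rw [ev4_pair h]
  have s4 : ∀ (a b c : J → ℝ) (w : T → ℝ), ev4 P a b c (fun j => ∑ p, w p * v p j) =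
      ∑ p, w p * ev4 P a b c (v p) := by
    intro a b c w
    rw [← ev4_pair h, s2]
    refine sum_congr rfl fun p _ => ?_
    rw [ev4_pair h]
  rw [ev4_eq, ev4_sum1]
  refine sum_congr rfl fun p _ => ?_
  rw [s2, mul_sum]
  refine sum_congr rfl fun q _ => ?_
  rw [s3, mul_sum, mul_sum]
  refine sum_congr rfl fun r _ => ?_
  rw [s4, mul_sum, mul_sum, mul_sum]
  refine sum_congr rfl fun s _ => ?_
  unfold pul
  ring

theorem se_pul {P : J → J → J → J → ℝ} (h : Cu P) (hs : Se P) (v : T → J → ℝ) :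
    Se (pul P v) := by
  intro x y
  rw [ev4_pul h]
  exact hs _ _

end ev

theorem kap_nonneg {P : Q4} (hC : Cu P) (hS : Se P) : 0 ≤ kap P := by
  have hC4 : Cur4 P := ⟨hC.a12, hC.pair, hC.bia⟩
  have hS4 : Sec4 P := by
    intro x y
    have h := hS x y
    rw [ev4_eq] at h
    refine h.trans (le_of_eq ?_)
    refine sum_congr rfl fun i _ => sum_congr rfl fun j _ => sum_congr rfl fun k _ =>
      sum_congr rfl fun l _ => ?_
    ring
  obtain ⟨t, n, μ, hμ, hK⟩ := Pool.Agent.W140.HD.SQ4.sq4 P hC4 hS4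
  obtain ⟨h1, h2, h3⟩ := Pool.Agent.W155.HD.K4.k4 P (fun i j k l => P i j k l + t * eps i j k l) t
    n μ hC4 (fun _ _ _ _ => rfl) hμ hK
  linarith

theorem EE_two {T J : Type*} [Fintype T] [DecidableEq T] [Fintype J] {P : J → J → J → J → ℝ}
    (hC : Cu P) (hS : Se P) (b₀ b₁ : T) (hne : b₀ ≠ b₁) (hT : ∀ b, b = b₀ ∨ b = b₁)
    (y : T × Bool → J → ℝ) : 0 ≤ EE (fun _ : T => P) y := by
  classical
  have hg : Function.Bijective (![(b₀, false), (b₀, true), (b₁, false), (b₁, true)] :
      Fin 4 → T × Bool) := by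
    constructor
    · intro i j h
      fin_cases i <;> fin_cases j <;> simp_all [Prod.ext_iff]
    · rintro ⟨b, β⟩
      rcases hT b with h | h
      · cases β
        · exact ⟨0, by simp [h]⟩
        · exact ⟨1, by simp [h]⟩
      · cases β
        · exact ⟨2, by simp [h]⟩
        · exact ⟨3, by simp [h]⟩
  set g : Fin 4 ≃ T × Bool := Equiv.ofBijective _ hg with hgdef
  have g0 : g 0 = (b₀, false) := rfl
  have g1 : g 1 = (b₀, true) := rfl
  have g2 : g 2 = (b₁, false) := rfl
  have g3 : g 3 = (b₁, true) := rfl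
  have hE : EE (fun _ : T => P) y = kap (pul P (fun i => y (g i))) := by
    unfold EE kap
    rw [← Equiv.sum_comp (Equiv.permCongr g)]
    refine sum_congr rfl fun π _ => ?_
    rw [← Equiv.sum_comp (Equiv.permCongr g)]
    refine sum_congr rfl fun π' _ => ?_
    have hs : ∀ π : Equiv.Perm (Fin 4), sn (g.permCongr π) = sn π := by
      intro π
      unfold sn
      rw [Equiv.Perm.sign_permCongr]
    rw [hs, hs, Fintype.prod_eq_mul b₀ b₁ hne]
    · congr 1
      unfold pul
      simp only [Equiv.permCongr_apply, ← g0, ← g1, ← g2, ← g3, Equiv.symm_apply_apply]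
    · intro b hb
      rcases hT b with h | h
      · exact absurd h hb.1
      · exact absurd h hb.2
  rw [hE]
  exact kap_nonneg (cu_pul hC _) (se_pul hC hS _)

theorem EE_one {T J : Type*} [Fintype T] [DecidableEq T] [Fintype J] {P : J → J → J → J → ℝ}
    (hC : Cu P) (hS : Se P) (b₀ : T) (hT : ∀ b, b = b₀)
    (y : T × Bool → J → ℝ) : 0 ≤ EE (fun _ : T => P) y := by
  classical
  have hg : Function.Bijective (fun β : Bool => ((b₀, β) : T × Bool)) := by
    constructor
    · intro i j h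
      exact congrArg Prod.snd h
    · rintro ⟨b, β⟩
      exact ⟨β, by rw [hT b]⟩
  set g : Bool ≃ T × Bool := Equiv.ofBijective _ hg with hgdef
  have g0 : g false = (b₀, false) := rfl
  have g1 : g true = (b₀, true) := rfl
  have hu : (univ : Finset (Equiv.Perm Bool)) = {1, Equiv.swap false true} := by decide
  have hne : (1 : Equiv.Perm Bool) ≠ Equiv.swap false true := by decide
  have hs : ∀ π : Equiv.Perm Bool, sn (g.permCongr π) = sn π := by
    intro π
    unfold sn
    rw [Equiv.Perm.sign_permCongr]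
  have hE : EE (fun _ : T => P) y = ∑ π : Equiv.Perm Bool, ∑ π' : Equiv.Perm Bool, sn π * sn π' *
      ev4 P (y (g (π false))) (y (g (π true))) (y (g (π' false))) (y (g (π' true))) := by
    unfold EE
    rw [← Equiv.sum_comp (Equiv.permCongr g)]
    refine sum_congr rfl fun π _ => ?_
    rw [← Equiv.sum_comp (Equiv.permCongr g)]
    refine sum_congr rfl fun π' _ => ?_
    rw [hs, hs, Fintype.prod_eq_single b₀ (fun b hb => absurd (hT b) hb)]
    congr 1
    simp only [Equiv.permCongr_apply, ← g0, ← g1, Equiv.symm_apply_apply]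
  have s1 : sn (1 : Equiv.Perm Bool) = 1 := by simp [sn]
  have s2 : sn (Equiv.swap false true) = -1 := sn_swap' (by decide)
  rw [hE, hu, sum_pair hne, sum_pair hne, sum_pair hne]
  simp only [s1, s2, Equiv.Perm.one_apply, Equiv.swap_apply_left, Equiv.swap_apply_right]
  have h0 := hS (y (g false)) (y (g true))
  have h1 : ev4 P (y (g true)) (y (g false)) (y (g false)) (y (g true)) =
      - ev4 P (y (g false)) (y (g true)) (y (g false)) (y (g true)) := ev4_a12 hC _ _ _ _
  have h2 : ev4 P (y (g false)) (y (g true)) (y (g true)) (y (g false)) =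
      - ev4 P (y (g false)) (y (g true)) (y (g false)) (y (g true)) := by
    rw [← ev4_pair hC, ev4_a12 hC, ev4_pair hC]
  have h3 : ev4 P (y (g true)) (y (g false)) (y (g true)) (y (g false)) =
      ev4 P (y (g false)) (y (g true)) (y (g false)) (y (g true)) := by
    rw [ev4_a12 hC, h2, neg_neg]
  rw [h1, h2, h3]
  linarith

variable {m : ℕ}

/-- **At most two places.** -/
theorem good_two {ι : Type*} [DecidableEq ι] {col : Fin m × Bool → ι} {P : T4 m} (hC : Cu P)
    (hS : Se P) {S : Finset (Fin m)} (hcard : S.card ≤ 2) : Good col S (fun _ => P) := by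
  classical
  intro v hv
  obtain ⟨c, y, -, hgen⟩ := gen col S v hv
  rcases Nat.lt_or_ge S.card 1 with h0 | h1
  · have hS0 : S = ∅ := by
      rw [← Finset.card_eq_zero]; omega
    subst hS0
    exact gmw_nonneg (κ := Unit) _ _ _ (fun b hb => absurd hb (notMem_empty b))
  rw [hgen (fun _ => P)]
  refine mul_nonneg (sq_nonneg _) ?_
  rcases Nat.lt_or_ge S.card 2 with h2 | h2
  · have hS1 : S.card = 1 := by omega
    obtain ⟨b₀, rfl⟩ := Finset.card_eq_one.1 hS1
    exact EE_one hC hS ⟨b₀, mem_singleton_self b₀⟩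
      (fun b => Subtype.ext (mem_singleton.1 b.2)) y
  · have hS2 : S.card = 2 := by omega
    obtain ⟨b₀, b₁, hne, rfl⟩ := Finset.card_eq_two.1 hS2
    refine EE_two hC hS ⟨b₀, by simp⟩ ⟨b₁, by simp⟩ (fun h => hne (congrArg Subtype.val h)) ?_ y
    intro b
    have := b.2
    simp only [mem_insert, mem_singleton] at this
    rcases this with h | h
    · exact Or.inl (Subtype.ext h)
    · exact Or.inr (Subtype.ext h)

end Pool.Agent.Y519.HB
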