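import Pool.Agent.W669.HD.Two
import Pool.Agent.W669.HD.Stm5
import Pool.Agent.W666.GB.Comb

/-!
# Mixed sums with covectors in some places
-/

set_option autoImplicit false

namespace Pool.Agent.Y519.HB

open Pool.Agent.W666.GB Pool.Agent.W669.HD Finset

variable {m : ℕ}

/-- the product of covectors in the slots outside the places of `S` -/
noncomputable def wt (S : Finset (Fin m)) (v : Fin m × Bool → Fin m × Bool → ℝ)
    (σ : Equiv.Perm (Fin m × Bool)) : ℝ :=
  ∏ b ∈ univ \ S, (v (b, false) (σ (b, false)) * v (b, true) (σ (b, true)))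

/-- the components of the weight -/
noncomputable def Bf (S : Finset (Fin m)) (v : Fin m × Bool → Fin m × Bool → ℝ)
    (F : S × Bool → Fin m × Bool) : ℝ :=
  ∑ σ : Equiv.Perm (Fin m × Bool), if (fun p => σ (iT S p)) = F then sn σ * wt S v σ else 0

theorem sum_fiber2 {P Q : Type*} [Fintype P] [Fintype Q] [DecidableEq Q] (a : P → ℝ) (g : P → Q)
    (K : Q → Q → ℝ) :
    ∑ s, ∑ t, a s * a t * K (g s) (g t) =
      ∑ F, ∑ G, (∑ s, if g s = F then a s else 0) * (∑ t, if g t = G then a t else 0) * K F G := by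
  have h1 : ∀ F G, (∑ s, if g s = F then a s else 0) * (∑ t, if g t = G then a t else 0) * K F G =
      ∑ s, ∑ t, (if g s = F then a s else 0) * (if g t = G then a t else 0) * K F G := by
    intro F G
    rw [sum_mul_sum, sum_mul]
    refine sum_congr rfl fun s _ => ?_
    rw [sum_mul]
  symm
  calc ∑ F, ∑ G, (∑ s, if g s = F then a s else 0) * (∑ t, if g t = G then a t else 0) * K F G
      = ∑ F, ∑ G, ∑ s, ∑ t, (if g s = F then a s else 0) * (if g t = G then a t else 0) * K F G :=
        sum_congr rfl fun F _ => sum_congr rfl fun G _ => h1 F G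
    _ = ∑ s, ∑ t, ∑ F, ∑ G, (if g s = F then a s else 0) * (if g t = G then a t else 0) * K F G := by
        simp only [← Fintype.sum_prod_type']
        refine Fintype.sum_equiv ⟨fun x => (x.2.2.1, x.2.2.2, x.1, x.2.1),
          fun x => (x.2.2.1, x.2.2.2, x.1, x.2.1), fun _ => rfl, fun _ => rfl⟩ _ _ ?_
        intro x
        rfl
    _ = _ := by
        refine sum_congr rfl fun s _ => sum_congr rfl fun t _ => ?_
        rw [Finset.sum_eq_single (g s), Finset.sum_eq_single (g t)]
        · simp
        · intro G _ hG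
          rw [if_neg (Ne.symm hG), mul_zero, zero_mul]
        · intro h
          exact absurd (mem_univ _) h
        · intro F _ hF
          refine sum_eq_zero fun G _ => ?_
          rw [if_neg (Ne.symm hF), zero_mul, zero_mul]
        · intro h
          exact absurd (mem_univ _) h

theorem gmw_eq_Bf (S : Finset (Fin m)) (v : Fin m × Bool → Fin m × Bool → ℝ) (C : Fin m → T4 m) :
    gmw (wt S v) S C = ∑ F : S × Bool → Fin m × Bool, ∑ G : S × Bool → Fin m × Bool,
      Bf S v F * Bf S v G *
        ∏ b : S, C b (F (b, false)) (F (b, true)) (G (b, false)) (G (b, true)) := by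
  have h := sum_fiber2 (fun σ : Equiv.Perm (Fin m × Bool) => sn σ * wt S v σ)
    (fun σ => fun p => σ (iT S p))
    (fun F G => ∏ b : S, C b (F (b, false)) (F (b, true)) (G (b, false)) (G (b, true)))
  unfold Bf
  rw [← h]
  unfold gmw
  refine sum_congr rfl fun σ _ => sum_congr rfl fun τ _ => ?_
  rw [← Finset.prod_coe_sort S]
  simp only [iT]
  ring

/-- the matrix with rows `r` in the slots of `S` and `v` elsewhere -/
noncomputable def Mt (S : Finset (Fin m)) (v : Fin m × Bool → Fin m × Bool → ℝ)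
    (r : S × Bool → Fin m × Bool → ℝ) : Matrix (Fin m × Bool) (Fin m × Bool) ℝ :=
  Matrix.of fun q j => if h : q.1 ∈ S then r (⟨q.1, h⟩, q.2) j else v q j

theorem det_eq {J : Type*} [Fintype J] [DecidableEq J] (M : Matrix J J ℝ) :
    M.det = ∑ σ : Equiv.Perm J, sn σ * ∏ q, M q (σ q) := by
  rw [← Matrix.det_transpose, Matrix.det_apply']
  rfl

theorem prod_slots (f : Fin m × Bool → ℝ) (S : Finset (Fin m)) :
    ∏ q, f q = (∏ p : S × Bool, f (iT S p)) * ∏ b ∈ univ \ S, (f (b, false) * f (b, true)) := by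
  rw [Fintype.prod_prod_type, ← Finset.prod_sdiff (Finset.subset_univ S), mul_comm]
  congr 1
  · rw [Fintype.prod_prod_type, ← Finset.prod_coe_sort S]
    rfl
  · refine prod_congr rfl fun b _ => ?_
    rw [Fintype.prod_bool, mul_comm]

theorem Bf_eq_det (S : Finset (Fin m)) (v : Fin m × Bool → Fin m × Bool → ℝ)
    (F : S × Bool → Fin m × Bool) :
    Bf S v F = (Mt S v (fun p j => if F p = j then 1 else 0)).det := by
  rw [det_eq]
  unfold Bf
  refine sum_congr rfl fun σ _ => ?_
  rw [prod_slots _ S]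
  have h2 : ∏ b ∈ univ \ S, (Mt S v (fun p j => if F p = j then 1 else 0) (b, false) (σ (b, false)) *
      Mt S v (fun p j => if F p = j then 1 else 0) (b, true) (σ (b, true))) = wt S v σ := by
    unfold wt
    refine prod_congr rfl fun b hb => ?_
    have hb' : b ∉ S := (mem_sdiff.1 hb).2
    simp only [Mt, Matrix.of_apply, dif_neg hb']
  have h1 : ∀ p : S × Bool, Mt S v (fun p j => if F p = j then 1 else 0) (iT S p) (σ (iT S p)) =
      if F p = σ (iT S p) then 1 else 0 := by
    intro p
    have hp : (iT S p).1 ∈ S := p.1.2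
    simp only [Mt, Matrix.of_apply, dif_pos hp]
    rfl
  rw [h2, prod_congr rfl fun p _ => h1 p]
  split_ifs with h
  · have h3 : ∏ p : S × Bool, (if F p = σ (iT S p) then (1 : ℝ) else 0) = 1 := by
      refine prod_eq_one fun p _ => ?_
      rw [if_pos (congrFun h p).symm]
    rw [h3, one_mul]
  · have h3 : ∃ p, F p ≠ σ (iT S p) := by
      by_contra hc
      push Not at hc
      exact h (funext fun p => (hc p).symm)
    obtain ⟨p, hp⟩ := h3
    rw [Finset.prod_eq_zero (mem_univ p) (if_neg hp)]
    ring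

theorem Bf_nondeg (S : Finset (Fin m)) (v : Fin m × Bool → Fin m × Bool → ℝ)
    (r : S × Bool → Fin m × Bool → ℝ) (hr : (Mt S v r).det ≠ 0) (F : S × Bool → Fin m × Bool) :
    Bf S v F = (Mt S v r).det *
      ∑ π : Equiv.Perm (S × Bool), sn π * ∏ p, (Mt S v r)⁻¹ (F p) (iT S (π p)) := by
  set M := Mt S v r with hM
  have hMN : M * M⁻¹ = 1 := Matrix.mul_nonsing_inv M (Ne.isUnit hr)
  set E := Mt S v (fun p j => if F p = j then (1 : ℝ) else 0) with hE
  have hK : ∀ q j, (E * M⁻¹) q j = if h : q.1 ∈ S then M⁻¹ (F (⟨q.1, h⟩, q.2)) j else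
      (1 : Matrix (Fin m × Bool) (Fin m × Bool) ℝ) q j := by
    intro q j
    by_cases h : q.1 ∈ S
    · rw [dif_pos h, Matrix.mul_apply, Finset.sum_eq_single (F (⟨q.1, h⟩, q.2))]
      · simp only [hE, Mt, Matrix.of_apply, dif_pos h, if_true, one_mul]
      · intro k _ hk
        simp only [hE, Mt, Matrix.of_apply, dif_pos h]
        rw [if_neg (Ne.symm hk), zero_mul]
      · intro h'
        exact absurd (mem_univ _) h'
    · rw [dif_neg h, ← hMN, Matrix.mul_apply, Matrix.mul_apply]
      refine sum_congr rfl fun k _ => ?_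
      simp only [hE, hM, Mt, Matrix.of_apply, dif_neg h]
  have hdet : E.det = M.det * (E * M⁻¹).det := by
    have h1 : M.det * (M⁻¹).det = 1 := by rw [← Matrix.det_mul, hMN, Matrix.det_one]
    rw [Matrix.det_mul, ← mul_assoc, mul_comm M.det, mul_assoc, h1, mul_one]
  rw [Bf_eq_det, ← hE, hdet, det_eq (E * M⁻¹)]
  congr 1
  symm
  refine Fintype.sum_of_injective (xT S) (xT_injective S) _ _ ?_ ?_
  · intro ρ hρ
    have h1 : ∃ x : Fin m × Bool, x.1 ∉ S ∧ ρ x ≠ x := by
      by_contra hn
      push Not at hn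
      exact hρ (xT_range S ρ hn)
    obtain ⟨x, hx, hne⟩ := h1
    rw [Finset.prod_eq_zero (mem_univ x), mul_zero]
    rw [hK, dif_neg hx, Matrix.one_apply_ne (Ne.symm hne)]
  · intro π
    rw [sn_xT, prod_slots _ S]
    have h2 : ∏ b ∈ univ \ S, ((E * M⁻¹) (b, false) ((xT S π) (b, false)) *
        (E * M⁻¹) (b, true) ((xT S π) (b, true))) = 1 := by
      refine prod_eq_one fun b hb => ?_
      have hb' : b ∉ S := (mem_sdiff.1 hb).2
      rw [xT_fix S π (b, false) hb', xT_fix S π (b, true) hb', hK, hK, dif_neg hb', dif_neg hb']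
      simp
    rw [h2, mul_one]
    congr 1
    refine prod_congr rfl fun p _ => ?_
    have hp : (iT S p).1 ∈ S := p.1.2
    rw [hK, dif_pos hp, xT_apply]
    rfl

/-- evaluation of a tensor on four vectors -/
noncomputable def ev4 {J : Type*} [Fintype J] (C : J → J → J → J → ℝ) (x y z w : J → ℝ) : ℝ :=
  ∑ p : (J × J) × (J × J), x p.1.1 * y p.1.2 * z p.2.1 * w p.2.2 * C p.1.1 p.1.2 p.2.1 p.2.2

theorem sum_FG {T J : Type*} [Fintype T] [DecidableEq T] [Fintype J]
    (h : T → J → J → J → J → ℝ) :
    ∑ F : T × Bool → J, ∑ G : T × Bool → J,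
      ∏ b : T, h b (F (b, false)) (F (b, true)) (G (b, false)) (G (b, true)) =
    ∏ b : T, ∑ p : (J × J) × (J × J), h b p.1.1 p.1.2 p.2.1 p.2.2 := by
  rw [Fintype.prod_sum, ← Fintype.sum_prod_type']
  refine Fintype.sum_equiv ⟨fun x b => ((x.1 (b, false), x.1 (b, true)),
      (x.2 (b, false), x.2 (b, true))),
    fun φ => (fun q => if q.2 then (φ q.1).1.2 else (φ q.1).1.1,
      fun q => if q.2 then (φ q.1).2.2 else (φ q.1).2.1), ?_, ?_⟩ _ _ ?_
  · intro x
    refine Prod.ext ?_ ?_
    · funext q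
      obtain ⟨b, β⟩ := q
      cases β <;> rfl
    · funext q
      obtain ⟨b, β⟩ := q
      cases β <;> rfl
  · intro φ
    funext b
    rfl
  · intro x
    rfl

/-- the double alternating sum of a family of tensors on vectors -/
noncomputable def EE {T J : Type*} [Fintype T] [DecidableEq T] [Fintype J]
    (C : T → J → J → J → J → ℝ) (y : T × Bool → J → ℝ) : ℝ :=
  ∑ π : Equiv.Perm (T × Bool), ∑ π' : Equiv.Perm (T × Bool), sn π * sn π' *
    ∏ b : T, ev4 (C b) (y (π (b, false))) (y (π (b, true))) (y (π' (b, false))) (y (π' (b, true)))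

theorem contract {T J : Type*} [Fintype T] [DecidableEq T] [Fintype J]
    (C : T → J → J → J → J → ℝ) (y : T × Bool → J → ℝ) :
    ∑ F : T × Bool → J, ∑ G : T × Bool → J,
      (∑ π : Equiv.Perm (T × Bool), sn π * ∏ p, y (π p) (F p)) *
      (∑ π : Equiv.Perm (T × Bool), sn π * ∏ p, y (π p) (G p)) *
        ∏ b : T, C b (F (b, false)) (F (b, true)) (G (b, false)) (G (b, true)) = EE C y := by
  unfold EE
  have h1 : ∀ π π' : Equiv.Perm (T × Bool), ∏ b : T, ev4 (C b) (y (π (b, false))) (y (π (b, true)))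
      (y (π' (b, false))) (y (π' (b, true))) =
      ∑ F : T × Bool → J, ∑ G : T × Bool → J, (∏ p, y (π p) (F p)) * (∏ p, y (π' p) (G p)) *
        ∏ b : T, C b (F (b, false)) (F (b, true)) (G (b, false)) (G (b, true)) := by
    intro π π'
    unfold ev4
    rw [← sum_FG (fun b i j k l => y (π (b, false)) i * y (π (b, true)) j * y (π' (b, false)) k *
      y (π' (b, true)) l * C b i j k l)]
    refine sum_congr rfl fun F _ => sum_congr rfl fun G _ => ?_
    rw [Fintype.prod_prod_type, Fintype.prod_prod_type, ← prod_mul_distrib, ← prod_mul_distrib]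
    refine prod_congr rfl fun b _ => ?_
    rw [Fintype.prod_bool, Fintype.prod_bool]
    ring
  simp only [h1]
  have h2 : ∀ F G : T × Bool → J, (∑ π : Equiv.Perm (T × Bool), sn π * ∏ p, y (π p) (F p)) *
      (∑ π : Equiv.Perm (T × Bool), sn π * ∏ p, y (π p) (G p)) *
        ∏ b : T, C b (F (b, false)) (F (b, true)) (G (b, false)) (G (b, true)) =
      ∑ π : Equiv.Perm (T × Bool), ∑ π' : Equiv.Perm (T × Bool), sn π * sn π' *
        ((∏ p, y (π p) (F p)) * (∏ p, y (π' p) (G p)) *
        ∏ b : T, C b (F (b, false)) (F (b, true)) (G (b, false)) (G (b, true))) := by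
    intro F G
    rw [sum_mul_sum, sum_mul]
    refine sum_congr rfl fun π _ => ?_
    rw [sum_mul]
    refine sum_congr rfl fun π' _ => ?_
    ring
  rw [sum_congr rfl fun F _ => sum_congr rfl fun G _ => h2 F G]
  have h3 : ∀ π π' : Equiv.Perm (T × Bool), sn π * sn π' *
      (∑ F : T × Bool → J, ∑ G : T × Bool → J, (∏ p, y (π p) (F p)) * (∏ p, y (π' p) (G p)) *
        ∏ b : T, C b (F (b, false)) (F (b, true)) (G (b, false)) (G (b, true))) =
      ∑ F : T × Bool → J, ∑ G : T × Bool → J, sn π * sn π' *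
        ((∏ p, y (π p) (F p)) * (∏ p, y (π' p) (G p)) *
        ∏ b : T, C b (F (b, false)) (F (b, true)) (G (b, false)) (G (b, true))) := by
    intro π π'
    rw [mul_sum]
    refine sum_congr rfl fun F _ => ?_
    rw [mul_sum]
  rw [sum_congr rfl fun π _ => sum_congr rfl fun π' _ => h3 π π']
  simp only [← Fintype.sum_prod_type']
  refine Fintype.sum_equiv ⟨fun x => (x.2.2.1, x.2.2.2, x.1, x.2.1),
    fun x => (x.2.2.1, x.2.2.2, x.1, x.2.1), fun _ => rfl, fun _ => rfl⟩ _ _ ?_
  intro x
  rfl

/-- **Evaluation.** A mixed sum with covectors in the places outside `S` is a nonnegative multiple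
of the alternating sum over the places of `S`, evaluated on vectors which are annihilated by the
covectors. With a colouring of the indices for which the covectors are pure, the vectors are
pure. -/
theorem gen {ι : Type*} [DecidableEq ι] (col : Fin m × Bool → ι) (S : Finset (Fin m))
    (v : Fin m × Bool → Fin m × Bool → ℝ)
    (hv : ∀ q, ∃ i, ∀ j, col j ≠ i → v q j = 0) :
    ∃ (c : ℝ) (y : S × Bool → Fin m × Bool → ℝ), (∀ p, ∃ i, ∀ j, col j ≠ i → y p j = 0) ∧
      ∀ C : Fin m → T4 m, gmw (wt S v) S C = c ^ 2 * EE (fun b : S => C b) y := by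
  classical
  by_cases hdeg : ∀ F, Bf S v F = 0
  · refine ⟨0, fun _ _ => 0, fun p => ⟨col (p.1.1, p.2), fun _ _ => rfl⟩, fun C => ?_⟩
    rw [gmw_eq_Bf]
    simp [hdeg]
  · push Not at hdeg
    obtain ⟨F₀, hF₀⟩ := hdeg
    rw [Bf_eq_det] at hF₀
    set r : S × Bool → Fin m × Bool → ℝ := fun p j => if F₀ p = j then 1 else 0 with hr
    set M := Mt S v r with hM
    refine ⟨M.det, fun p j => M⁻¹ j (iT S p), ?_, ?_⟩
    · -- purity
      choose κ hκ using hv
      have hrow : ∀ q, ∃ i, ∀ j, col j ≠ i → M q j = 0 := by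
        intro q
        by_cases h : q.1 ∈ S
        · refine ⟨col (F₀ (⟨q.1, h⟩, q.2)), fun j hj => ?_⟩
          simp only [hM, Mt, Matrix.of_apply, dif_pos h, hr]
          rw [if_neg]
          intro hc
          exact hj (by rw [hc])
        · refine ⟨κ q, fun j hj => ?_⟩
          simp only [hM, Mt, Matrix.of_apply, dif_neg h]
          exact hκ q j hj
      choose κ' hκ' using hrow
      have hMN : M * M⁻¹ = 1 := Matrix.mul_nonsing_inv M (Ne.isUnit hF₀)
      set N' : Matrix (Fin m × Bool) (Fin m × Bool) ℝ :=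
        Matrix.of fun j q => if col j = κ' q then M⁻¹ j q else 0 with hN'
      have h1 : M * N' = 1 := by
        ext q q'
        by_cases hqq : κ' q = κ' q'
        · rw [← hMN, Matrix.mul_apply, Matrix.mul_apply]
          refine sum_congr rfl fun j _ => ?_
          by_cases hj : col j = κ' q
          · rw [hN', Matrix.of_apply, if_pos (hj.trans hqq)]
          · rw [hκ' q j hj, zero_mul, zero_mul]
        · rw [Matrix.one_apply_ne (fun h => hqq (by rw [h])), Matrix.mul_apply]
          refine sum_eq_zero fun j _ => ?_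
          by_cases hj : col j = κ' q
          · rw [hN', Matrix.of_apply, if_neg (fun h => hqq (hj.symm.trans h)), mul_zero]
          · rw [hκ' q j hj, zero_mul]
      have h2 : M⁻¹ = N' := Matrix.inv_eq_right_inv h1
      intro p
      refine ⟨κ' (iT S p), fun j hj => ?_⟩
      change M⁻¹ j (iT S p) = 0
      rw [h2, hN', Matrix.of_apply, if_neg hj]
    · intro C
      rw [gmw_eq_Bf]
      have h1 : ∀ F, Bf S v F = M.det *
          ∑ π : Equiv.Perm (S × Bool), sn π * ∏ p, M⁻¹ (F p) (iT S (π p)) :=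
        fun F => Bf_nondeg S v r hF₀ F
      simp only [h1]
      have h3 := contract (fun b : S => C b) (fun p j => M⁻¹ j (iT S p))
      rw [← h3]
      conv_rhs => rw [Finset.mul_sum]
      refine sum_congr rfl fun F _ => ?_
      conv_rhs => rw [Finset.mul_sum]
      refine sum_congr rfl fun G _ => ?_
      ring

end Pool.Agent.Y519.HB
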