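import Pool.Agent.Y519.HB.Blk
import Pool.Agent.Y519.HB.Fin

/-!
# The Hopf sign on all subspaces
-/

set_option autoImplicit false

namespace Pool.Agent.Y519.HB

open Pool.Agent.W666.GB Pool.Agent.W669.HD Finset

section change

variable {T J : Type} [Fintype T] [DecidableEq T] [Fintype J]

theorem A_det (M : T × Bool → J → ℝ) (F : T × Bool → J) :
    ∑ π : Equiv.Perm (T × Bool), sn π * ∏ p, M (π p) (F p) =
      (Matrix.of fun a b => M a (F b)).det := by
  rw [Matrix.det_apply']
  rfl

theorem A_noninj (M : T × Bool → J → ℝ) (F : T × Bool → J) (h : ¬ Function.Injective F) :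
    ∑ π : Equiv.Perm (T × Bool), sn π * ∏ p, M (π p) (F p) = 0 := by
  rw [A_det]
  unfold Function.Injective at h
  push Not at h
  obtain ⟨p, q, hpq, hne⟩ := h
  refine Matrix.det_zero_of_column_eq hne fun i => ?_
  simp only [Matrix.of_apply, hpq]

theorem EE_small (C : J → J → J → J → ℝ) (M : T × Bool → J → ℝ)
    (h : Fintype.card J < Fintype.card (T × Bool)) : EE (fun _ : T => C) M = 0 := by
  rw [← contract]
  refine sum_eq_zero fun F _ => sum_eq_zero fun G _ => ?_
  rw [A_noninj M F, zero_mul, zero_mul]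
  intro hi
  exact absurd (Fintype.card_le_of_injective F hi) (not_le.2 h)

theorem EE_full {k : ℕ} (C : T4 k) (M : Fin k × Bool → Fin k × Bool → ℝ) :
    EE (fun _ : Fin k => C) M = (Matrix.of M).det ^ 2 * gm (fun _ : Fin k => C) := by
  classical
  have hA : ∀ σ : Equiv.Perm (Fin k × Bool),
      ∑ π : Equiv.Perm (Fin k × Bool), sn π * ∏ p, M (π p) (σ p) = sn σ * (Matrix.of M).det := by
    intro σ
    rw [A_det]
    exact Matrix.det_permute' σ (Matrix.of M)
  have h0 : ∀ F : Fin k × Bool → Fin k × Bool,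
      F ∉ Set.range (fun σ : Equiv.Perm (Fin k × Bool) => (σ : Fin k × Bool → Fin k × Bool)) →
      ∑ π : Equiv.Perm (Fin k × Bool), sn π * ∏ p, M (π p) (F p) = 0 := by
    intro F hF
    refine A_noninj M F fun hi => hF ?_
    exact ⟨Equiv.ofBijective F (Finite.injective_iff_bijective.1 hi), rfl⟩
  rw [← contract]
  have hinj : Function.Injective
      (fun σ : Equiv.Perm (Fin k × Bool) => (σ : Fin k × Bool → Fin k × Bool)) :=
    DFunLike.coe_injective
  unfold gm
  rw [mul_sum]
  symm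
  refine Fintype.sum_of_injective _ hinj _ _ ?_ ?_
  · intro F hF
    refine sum_eq_zero fun G _ => ?_
    rw [h0 F hF, zero_mul, zero_mul]
  · intro σ
    rw [mul_sum]
    refine Fintype.sum_of_injective _ hinj _ _ ?_ ?_
    · intro G hG
      rw [h0 G hG, mul_zero, zero_mul]
    · intro τ
      rw [hA, hA]
      ring

theorem EE_reindex {T' : Type} [Fintype T'] [DecidableEq T'] (θ : T ≃ T')
    (C : T' → J → J → J → J → ℝ) (y : T' × Bool → J → ℝ) :
    EE (fun b => C (θ b)) (fun q : T × Bool => y (θ q.1, q.2)) = EE C y := by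
  classical
  set g : T × Bool ≃ T' × Bool := θ.prodCongr (Equiv.refl Bool) with hg
  have hs : ∀ π : Equiv.Perm (T × Bool), sn (g.permCongr π) = sn π := by
    intro π
    unfold sn
    rw [Equiv.Perm.sign_permCongr]
  have hap : ∀ (π : Equiv.Perm (T × Bool)) (b : T) (β : Bool),
      g.permCongr π (θ b, β) = (θ (π (b, β)).1, (π (b, β)).2) := by
    intro π b β
    rw [Equiv.permCongr_apply]
    have : g.symm (θ b, β) = (b, β) := by
      rw [Equiv.symm_apply_eq]
      rfl
    rw [this]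
    rfl
  unfold EE
  rw [← Equiv.sum_comp (Equiv.permCongr g) (fun π => ∑ π' : Equiv.Perm (T' × Bool), sn π * sn π' *
    ∏ b : T', ev4 (C b) (y (π (b, false))) (y (π (b, true))) (y (π' (b, false))) (y (π' (b, true))))]
  refine sum_congr rfl fun π _ => ?_
  rw [← Equiv.sum_comp (Equiv.permCongr g) (fun π' => sn ((Equiv.permCongr g) π) * sn π' *
    ∏ b : T', ev4 (C b) (y ((Equiv.permCongr g) π (b, false))) (y ((Equiv.permCongr g) π (b, true)))
      (y (π' (b, false))) (y (π' (b, true))))]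
  refine sum_congr rfl fun π' _ => ?_
  rw [hs, hs, ← Equiv.prod_comp θ]
  congr 1
  refine prod_congr rfl fun b _ => ?_
  rw [hap, hap, hap, hap]

end change

section hopf

variable {V : Type} [NormedAddCommGroup V] [InnerProductSpace ℝ V]

/-- multilinear expansion -/
theorem R_ev4 {J : Type*} [Fintype J] {R : V → V → V → V → ℝ} (hR : AlgCurv R) (f : J → V)
    (x y z w : J → ℝ) : R (∑ i, x i • f i) (∑ i, y i • f i) (∑ i, z i • f i) (∑ i, w i • f i) =
      ev4 (fun i j k l => R (f i) (f j) (f k) (f l)) x y z w := by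
  have hbi := Pool.Agent.W150.HD.curv_bi hR
  have s1 : ∀ (c : J → ℝ) (u v w : V), R (∑ i, c i • f i) u v w =
      ∑ i, c i * R (f i) u v w := fun c u v w => Pool.Agent.W150.HD.sumK hbi univ c f u v w
  have s2 : ∀ (c : J → ℝ) (u v w : V), R u (∑ i, c i • f i) v w =
      ∑ i, c i * R u (f i) v w := by
    intro c u v w
    have h2 : R u (∑ i, c i • f i) v w = - R (∑ i, c i • f i) u v w := by
      rw [hR.anti u]; ring
    rw [h2, s1, ← sum_neg_distrib]
    refine sum_congr rfl fun i _ => ?_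
    rw [hR.anti u (f i)]
    ring
  rw [ev4_eq, s1]
  refine sum_congr rfl fun i _ => ?_
  rw [s2, mul_sum]
  refine sum_congr rfl fun j _ => ?_
  rw [← hR.pair, s1, mul_sum, mul_sum]
  refine sum_congr rfl fun k _ => ?_
  rw [s2, mul_sum, mul_sum, mul_sum]
  refine sum_congr rfl fun l _ => ?_
  rw [hR.pair]
  ring

/-- a tensor living on `U` does not see components orthogonal to `U` -/
theorem lives_eq {R : V → V → V → V → ℝ} (hR : AlgCurv R) {U : Submodule ℝ V} (hL : LivesOn U R)
    {x x' y y' z z' w w' : V} (hx : x - x' ∈ Uᗮ) (hy : y - y' ∈ Uᗮ) (hz : z - z' ∈ Uᗮ)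
    (hw : w - w' ∈ Uᗮ) : R x y z w = R x' y' z' w' := by
  have h1 : ∀ {x x' : V}, x - x' ∈ Uᗮ → ∀ y z w, R x y z w = R x' y z w := by
    intro x x' h y z w
    have e : x = (x - x') + x' := by abel
    rw [e, hR.add, hL _ h, zero_add]
  rw [h1 hx, ← neg_eq_iff_eq_neg.2 (hR.anti x' y z w), h1 hy, ← hR.pair, h1 hz,
    ← neg_eq_iff_eq_neg.2 (hR.anti z' w y' x'), h1 hw]
  have e1 := hR.anti z' w' y' x'
  have e2 := hR.pair y' x' z' w'
  have e3 := hR.anti x' y' z' w'
  linarith

variable {m : ℕ}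

/-- **From the Hopf sign on subspaces to the alternating sums.** -/
theorem EE_of_hopf (e : OrthonormalBasis (Fin m × Bool) ℝ V) {R : V → V → V → V → ℝ}
    (hR : AlgCurv R) {U : Submodule ℝ V} (hL : LivesOn U R) {T : Type} [Fintype T]
    [DecidableEq T] (hH : ∀ E : Submodule ℝ V, E ≤ U →
      ∀ e : OrthonormalBasis (Fin (Fintype.card T) × Bool) ℝ E,
        0 ≤ (-1) ^ (Fintype.card T) * gbc e (fun x y z w : E => R x y z w))
    (y : T × Bool → Fin m × Bool → ℝ) : 0 ≤ EE (fun _ : T => cp e (negT R)) y := by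
  classical
  have hfin : FiniteDimensional ℝ V := Module.Finite.of_basis e.toBasis
  obtain ⟨Y, hY⟩ : ∃ Y : T × Bool → V, Y = fun q => ∑ j, y q j • e j := ⟨_, rfl⟩
  obtain ⟨Z, hZ⟩ : ∃ Z : T × Bool → V, Z = fun q => U.starProjection (Y q) := ⟨_, rfl⟩
  have hZU : ∀ q, Z q ∈ U := fun q => by rw [hZ]; exact U.starProjection_apply_mem (Y q)
  have hYZ : ∀ q, Y q - Z q ∈ Uᗮ := fun q => by
    rw [hZ]; exact U.sub_starProjection_mem_orthogonal (Y q)
  obtain ⟨E, hE⟩ : ∃ E : Submodule ℝ V, E = Submodule.span ℝ (Set.range Z) := ⟨_, rfl⟩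
  have hZE : ∀ q, Z q ∈ E := fun q => by
    rw [hE]; exact Submodule.subset_span ⟨q, rfl⟩
  have hEU : E ≤ U := by
    rw [hE, Submodule.span_le]
    rintro _ ⟨q, rfl⟩
    exact hZU q
  have hev : ∀ a b c d, ev4 (cp e (negT R)) (y a) (y b) (y c) (y d) =
      - R (Z a) (Z b) (Z c) (Z d) := by
    intro a b c d
    rw [← lives_eq hR hL (hYZ a) (hYZ b) (hYZ c) (hYZ d), hY]
    simp only
    rw [R_ev4 hR (fun j => e j)]
    unfold ev4
    rw [← sum_neg_distrib]
    refine sum_congr rfl fun p _ => ?_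
    simp only [cp, negT]
    ring
  -- the general change of basis
  have key : ∀ {J : Type} [Fintype J] (ε : OrthonormalBasis J ℝ E),
      EE (fun _ : T => cp e (negT R)) y =
        EE (fun _ : T => (fun s t u w : J => - R (ε s) (ε t) (ε u) (ε w)))
          (fun q s => ε.repr ⟨Z q, hZE q⟩ s) := by
    intro J _ ε
    have hexp : ∀ q, Z q = ∑ s, ε.repr ⟨Z q, hZE q⟩ s • (ε s : V) := by
      intro q
      have h2 := ε.sum_repr ⟨Z q, hZE q⟩
      have h3 := congrArg (fun v : E => (v : V)) h2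
      simp only [Submodule.coe_sum, Submodule.coe_smul] at h3
      exact h3.symm
    unfold EE
    refine sum_congr rfl fun π _ => sum_congr rfl fun π' _ => ?_
    congr 1
    refine prod_congr rfl fun b _ => ?_
    rw [hev, hexp (π (b, false)), hexp (π (b, true)), hexp (π' (b, false)), hexp (π' (b, true)),
      R_ev4 hR (fun s => (ε s : V))]
    unfold ev4
    rw [← sum_neg_distrib]
    refine sum_congr rfl fun p _ => ?_
    ring
  have hcard : Module.finrank ℝ E ≤ Fintype.card (T × Bool) := by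
    rw [hE]
    exact finrank_range_le_card Z
  rcases Nat.lt_or_ge (Module.finrank ℝ E) (Fintype.card (T × Bool)) with h1 | h1
  · rw [key (stdOrthonormalBasis ℝ E), EE_small]
    rw [Fintype.card_fin]
    exact h1
  · have h2 : Module.finrank ℝ E = Fintype.card (T × Bool) := le_antisymm hcard h1
    have h3 : Module.finrank ℝ E = Fintype.card (Fin (Fintype.card T) × Bool) := by
      rw [h2]
      simp
    obtain ⟨θ⟩ : Nonempty (T ≃ Fin (Fintype.card T)) := ⟨Fintype.equivFin T⟩
    obtain ⟨g⟩ : Nonempty (Fin (Module.finrank ℝ E) ≃ Fin (Fintype.card T) × Bool) := by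
      rw [← Fintype.card_eq, Fintype.card_fin, h3]
    obtain ⟨ε, -⟩ : ∃ ε : OrthonormalBasis (Fin (Fintype.card T) × Bool) ℝ E, True :=
      ⟨(stdOrthonormalBasis ℝ E).reindex g, trivial⟩
    rw [key ε]
    have h4 := EE_reindex θ
      (fun _ => (fun s t u w : Fin (Fintype.card T) × Bool => - R (ε s) (ε t) (ε u) (ε w)))
      (fun q s => ε.repr ⟨Z (θ.symm q.1, q.2), hZE _⟩ s)
    simp only [Equiv.symm_apply_apply] at h4
    have h5 : EE (fun _ : T => (fun s t u w : Fin (Fintype.card T) × Bool =>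
        - R (ε s) (ε t) (ε u) (ε w))) (fun q s => ε.repr ⟨Z q, hZE q⟩ s) =
        EE (fun _ : T => (fun s t u w : Fin (Fintype.card T) × Bool =>
        - R (ε s) (ε t) (ε u) (ε w))) (fun q s => ε.repr ⟨Z (q.1, q.2), hZE _⟩ s) := rfl
    rw [h5, h4, EE_full]
    refine mul_nonneg (sq_nonneg _) ?_
    have h6 := hH E hEU ε
    rw [gbc_eq] at h6
    have hπ := Real.pi_pos
    have hc : 0 < 1 / ((8 * Real.pi) ^ (Fintype.card T) * ((Fintype.card T).factorial : ℝ)) := by
      positivity
    exact nonneg_of_mul_nonneg_right h6 hc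

theorem her_of_hopf (e : OrthonormalBasis (Fin m × Bool) ℝ V) {R : V → V → V → V → ℝ}
    (hR : AlgCurv R) {U : Submodule ℝ V} (hL : LivesOn U R) (hH : HopfOn U R) :
    Her (cp e (negT R)) := fun T _ _ y =>
  EE_of_hopf e hR hL (fun E hE ε => hH (Fintype.card T) E hE ε) y

end hopf

end Pool.Agent.Y519.HB
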