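import Pool.Agent.Y519.HB.Top

/-!
# Curvature symmetries of the classes, integrated forms
-/

set_option autoImplicit false

namespace Pool.Agent.Y519.HB

open Pool.Agent.W666.GB Pool.Agent.W669.HD Finset

variable {V : Type} [NormedAddCommGroup V] [InnerProductSpace ℝ V]

theorem sum_curv {J : Type} [Fintype J] {S : J → V → V → V → V → ℝ} (hS : ∀ i, AlgCurv (S i)) :
    AlgCurv (fun a b c d => ∑ i, S i a b c d) where
  add x x' y z w := by
    rw [← sum_add_distrib]
    exact sum_congr rfl fun i _ => (hS i).add _ _ _ _ _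
  smul t x y z w := by
    rw [mul_sum]
    exact sum_congr rfl fun i _ => (hS i).smul _ _ _ _ _
  anti x y z w := by
    rw [← sum_neg_distrib]
    exact sum_congr rfl fun i _ => (hS i).anti _ _ _ _
  pair x y z w := sum_congr rfl fun i _ => (hS i).pair _ _ _ _
  bianchi x y z w := by
    rw [← sum_add_distrib, ← sum_add_distrib]
    exact sum_eq_zero fun i _ => (hS i).bianchi _ _ _ _

theorem sq_curv (x y : V) : AlgCurv (sqDec x y) where
  add a a' b c d := by simp only [sqDec, inner_add_right]; ring
  smul t a b c d := by simp only [sqDec, real_inner_smul_right]; ring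
  anti a b c d := by simp only [sqDec]; ring
  pair a b c d := by simp only [sqDec]; ring
  bianchi a b c d := by simp only [sqDec]; ring

theorem sub_curv {R S : V → V → V → V → ℝ} (hR : AlgCurv R) (hS : AlgCurv S) :
    AlgCurv (fun a b c d => R a b c d - S a b c d) where
  add x x' y z w := by rw [hR.add, hS.add]; ring
  smul t x y z w := by rw [hR.smul, hS.smul]; ring
  anti x y z w := by rw [hR.anti, hS.anti]; ring
  pair x y z w := by rw [hR.pair, hS.pair]
  bianchi x y z w := by
    have h1 := hR.bianchi x y z w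
    have h2 := hS.bianchi x y z w
    linarith

theorem blocks_curv {δ : ℝ} {R : V → V → V → V → ℝ} (h : HopfBlocks δ R) : AlgCurv R := by
  obtain ⟨r, U, S, n, x, y, p, q, hO, hS, hL, hH, hx, hy, hR⟩ := h
  have h1 := sub_curv (sub_curv (sum_curv hS) (sum_curv fun k => sq_curv (x k) (y k)))
    (unit_curv (V := V) δ)
  have h2 : R = fun a b c d => (∑ i, S i a b c d - ∑ k, sqDec (x k) (y k) a b c d) -
      δ * unitT a b c d := by
    funext a b c d
    exact hR a b c d
  rw [h2]
  exact h1

/-- **The three classes.** -/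
theorem cls_bound {m : ℕ} (e : OrthonormalBasis (Fin m × Bool) ℝ V) {δ : ℝ} (hδ : 0 ≤ δ)
    {R : V → V → V → V → ℝ} (h : HopfBlocks δ R ∨ FiveBlocks δ R ∨ WarpType δ R) :
    roundGB m δ ≤ (-1) ^ m * gbc e R := by
  have hfin : FiniteDimensional ℝ V := Module.Finite.of_basis e.toBasis
  have h1 : HopfBlocks δ R := by
    rcases h with h | h | h
    · exact h
    · exact five_hopf h
    · exact warp_hopf h
  exact hopf_blocks e hδ (blocks_curv h1) h1

/-- Integrated form. -/
theorem field_cls {m : ℕ} {M : Type} [MeasurableSpace M] (μ : MeasureTheory.Measure M)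
    (K : CurvField m M)
    (h : ∀ p, HopfBlocks 0 (K.R p) ∨ FiveBlocks 0 (K.R p) ∨ WarpType 0 (K.R p)) :
    0 ≤ (-1) ^ m * ∫ p, K.gb p ∂μ := by
  rw [← MeasureTheory.integral_const_mul]
  refine MeasureTheory.integral_nonneg fun p => ?_
  exact (roundGB_nonneg le_rfl).trans (cls_bound (K.e p) le_rfl (h p))

/-- Integrated form with a constant curvature part. -/
theorem field_clsδ {m : ℕ} {M : Type} [MeasurableSpace M] (μ : MeasureTheory.Measure M)
    [MeasureTheory.IsFiniteMeasure μ] (K : CurvField m M) (hi : MeasureTheory.Integrable K.gb μ)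
    {δ : ℝ} (hδ : 0 ≤ δ)
    (h : ∀ p, HopfBlocks δ (K.R p) ∨ FiveBlocks δ (K.R p) ∨ WarpType δ (K.R p)) :
    roundGB m δ * μ.real Set.univ ≤ (-1) ^ m * ∫ p, K.gb p ∂μ := by
  rw [← MeasureTheory.integral_const_mul]
  have h1 : roundGB m δ * μ.real Set.univ = ∫ _, roundGB m δ ∂μ := by
    rw [MeasureTheory.integral_const, smul_eq_mul, mul_comm]
  rw [h1]
  refine MeasureTheory.integral_mono (MeasureTheory.integrable_const _) (hi.const_mul _) fun p => ?_
  exact cls_bound (K.e p) hδ (h p)

end Pool.Agent.Y519.HB
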