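import Pool.Agent.Y519.HB.Four
import Pool.Agent.W238.HD.PSD5
import Pool.Agent.W60.HD.EXP5
import Pool.Agent.W891.HD.DEC
import Pool.Agent.W863.HD.Good5

/-!
# Two places with the same tensor living on five vectors
-/

set_option autoImplicit false

namespace Pool.Agent.Y519.HB

open Pool.Agent.W666.GB Pool.Agent.W669.HD Finset Pool.Agent.W238.HD

theorem alt_adj (B h : (Fin 4 → Fin 5) → ℝ) (hh : ∀ F (π : Equiv.Perm (Fin 4)),
    h (F ∘ π) = sn π * h F) : ∑ F, alt B F * h F = ∑ F, B F * h F := by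
  unfold alt
  have h1 : ∀ F, 1 / 24 * (∑ π : Equiv.Perm (Fin 4), sn π * B (F ∘ π)) * h F =
      ∑ π : Equiv.Perm (Fin 4), 1 / 24 * (sn π * (B (F ∘ π) * h F)) := by
    intro F
    rw [mul_sum, sum_mul]
    refine sum_congr rfl fun π _ => ?_
    ring
  simp only [h1]
  rw [sum_comm]
  have h2 : ∀ π : Equiv.Perm (Fin 4), ∑ F : Fin 4 → Fin 5, 1 / 24 * (sn π * (B (F ∘ π) * h F)) =
      1 / 24 * ∑ F, B F * h F := by
    intro π
    rw [← mul_sum]
    congr 1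
    rw [← Equiv.sum_comp (Equiv.arrowCongr π (Equiv.refl (Fin 5))) (fun F => sn π * (B (F ∘ π) * h F))]
    refine sum_congr rfl fun F _ => ?_
    have e1 : (Equiv.arrowCongr π (Equiv.refl (Fin 5))) F = F ∘ ⇑π⁻¹ := rfl
    rw [e1]
    have e2 : (F ∘ ⇑π⁻¹) ∘ ⇑π = F := by
      funext i
      simp
    have e3 : sn π * h (F ∘ ⇑π⁻¹) = h F := by
      have := hh (F ∘ ⇑π⁻¹) π
      rw [e2] at this
      exact this.symm
    rw [e2, ← e3]
    ring
  rw [sum_congr rfl fun π _ => h2 π, sum_const, card_univ, Fintype.card_perm, Fintype.card_fin,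
    nsmul_eq_mul]
  have : ((Nat.factorial 4 : ℕ) : ℝ) = 24 := by norm_num [Nat.factorial]
  rw [this]
  ring

/-- a kernel which is nonnegative on alternating functions is a sum of squares of decomposable
functions, up to alternation -/
theorem exists_dec (T : (Fin 4 → Fin 5) → (Fin 4 → Fin 5) → ℝ) (hs : ∀ F G, T F G = T G F)
    (hp : ∀ Z : (Fin 4 → Fin 5) → ℝ, AltF Z → 0 ≤ ∑ F, ∑ G, T F G * (Z F * Z G)) :
    ∃ (n : ℕ) (u : Fin n → Fin 4 → Fin 5 → ℝ), ∀ h : (Fin 4 → Fin 5) → (Fin 4 → Fin 5) → ℝ,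
      (∀ (F G : Fin 4 → Fin 5) (π : Equiv.Perm (Fin 4)), h (F ∘ π) G = sn π * h F G) →
      (∀ (F G : Fin 4 → Fin 5) (π : Equiv.Perm (Fin 4)), h F (G ∘ π) = sn π * h F G) →
      ∑ F, ∑ G, T F G * h F G =
        ∑ k, ∑ F, ∑ G, (∑ π : Equiv.Perm (Fin 4), sn π * ∏ i, u k (π i) (F i)) *
          (∑ π : Equiv.Perm (Fin 4), sn π * ∏ i, u k (π i) (G i)) * h F G := by
  obtain ⟨n, B, hB⟩ := exists_B T hs hp
  have hdec : ∀ k, ∃ v : Fin 4 → Fin 5 → ℝ, ∀ F : Fin 4 → Fin 5,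
      alt (B k) F = ∑ π : Equiv.Perm (Fin 4), sn π * ∏ i, v (π i) (F i) := fun k =>
    Pool.Agent.W891.HD.dec (alt (B k)) (alt_alt (B k))
  choose u hu using hdec
  refine ⟨n, u, fun h h1 h2 => ?_⟩
  rw [hB h h1 h2]
  refine sum_congr rfl fun k _ => ?_
  have e1 : ∀ F, ∑ G, B k F * B k G * h F G = B k F * ∑ G, alt (B k) G * h F G := by
    intro F
    rw [alt_adj (B k) (fun G => h F G) (fun G π => h2 F G π), mul_sum]
    refine sum_congr rfl fun G _ => ?_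
    ring
  rw [sum_congr rfl fun F _ => e1 F, ← alt_adj (B k) (fun F => ∑ G, alt (B k) G * h F G) ?_]
  · refine sum_congr rfl fun F _ => ?_
    rw [mul_sum]
    refine sum_congr rfl fun G _ => ?_
    rw [hu, hu]
    ring
  · intro F π
    rw [mul_sum]
    refine sum_congr rfl fun G _ => ?_
    rw [h1]
    ring

/-- the kernel of a tensor with nonnegative sectional values -/
theorem qf_nonneg {P : Q5} (hC : Cu P) (hS : Se P) (Z : (Fin 4 → Fin 5) → ℝ) (hZ : AltF Z) :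
    0 ≤ qf P P Z := by
  obtain ⟨v, hv⟩ := Pool.Agent.W891.HD.dec Z hZ
  rw [Pool.Agent.W863.HD.Good5.qf_eq v P Z hv]
  have e : Pool.Agent.W863.HD.Good5.tl v P = pul P v := by
    funext p q r s
    unfold Pool.Agent.W863.HD.Good5.tl pul
    rw [ev4_eq]
  rw [e]
  exact kap_nonneg (cu_pul hC v) (se_pul hC hS v)

section places

variable {m : ℕ}

/-- the product of four covectors in the slots of two places -/
noncomputable def us (b₀ b₁ : Fin m) (u : Fin 4 → Fin m × Bool → ℝ)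
    (σ : Equiv.Perm (Fin m × Bool)) : ℝ := ∏ i, u i (σ (slot b₀ b₁ i))

theorem us_cp4 (b₀ b₁ : Fin m) (hb : b₁ ≠ b₀) (u : Fin 4 → Fin m × Bool → ℝ)
    (π : Equiv.Perm (Fin 4)) (σ : Equiv.Perm (Fin m × Bool)) :
    us b₀ b₁ (fun i => u (π i)) (σ * cp4 b₀ b₁ hb π) = us b₀ b₁ u σ := by
  unfold us
  rw [← Equiv.prod_comp π (fun i => u i (σ (slot b₀ b₁ i)))]
  refine prod_congr rfl fun i _ => ?_
  rw [Equiv.Perm.mul_apply, cp4_slot]

theorem gmw2_us_left (b₀ b₁ : Fin m) (hb : b₁ ≠ b₀) (u : Fin 4 → Fin m × Bool → ℝ)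
    (w w' : Equiv.Perm (Fin m × Bool) → ℝ)
    (hw : ∀ σ σ' : Equiv.Perm (Fin m × Bool),
      (∀ x : Fin m × Bool, x.1 ≠ b₀ → x.1 ≠ b₁ → σ x = σ' x) → w σ = w σ')
    (S : Finset (Fin m)) (C : Fin m → T4 m) (π : Equiv.Perm (Fin 4)) :
    gmw2 (fun σ => w σ * us b₀ b₁ (fun i => u (π i)) σ) w' ((S.erase b₀).erase b₁) C =
      sn π * gmw2 (fun σ => w σ * us b₀ b₁ u σ) w' ((S.erase b₀).erase b₁) C := by
  rw [gmw2_eq, gmw2_eq, ← Equiv.sum_comp (Equiv.mulRight (cp4 b₀ b₁ hb π)), mul_sum]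
  refine sum_congr rfl fun σ _ => ?_
  rw [mul_sum]
  refine sum_congr rfl fun τ _ => ?_
  rw [Equiv.coe_mulRight, sn_mul, sn_cp4, us_cp4, w_cp4 b₀ b₁ hb π w hw, Kp_left]
  ring

theorem gmw2_us_right (b₀ b₁ : Fin m) (hb : b₁ ≠ b₀) (u : Fin 4 → Fin m × Bool → ℝ)
    (w w' : Equiv.Perm (Fin m × Bool) → ℝ)
    (hw : ∀ σ σ' : Equiv.Perm (Fin m × Bool),
      (∀ x : Fin m × Bool, x.1 ≠ b₀ → x.1 ≠ b₁ → σ x = σ' x) → w σ = w σ')
    (S : Finset (Fin m)) (C : Fin m → T4 m) (π : Equiv.Perm (Fin 4)) :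
    gmw2 w' (fun σ => w σ * us b₀ b₁ (fun i => u (π i)) σ) ((S.erase b₀).erase b₁) C =
      sn π * gmw2 w' (fun σ => w σ * us b₀ b₁ u σ) ((S.erase b₀).erase b₁) C := by
  rw [gmw2_eq, gmw2_eq, mul_sum]
  refine sum_congr rfl fun σ _ => ?_
  rw [← Equiv.sum_comp (Equiv.mulRight (cp4 b₀ b₁ hb π)), mul_sum]
  refine sum_congr rfl fun τ _ => ?_
  rw [Equiv.coe_mulRight, sn_mul, sn_cp4, us_cp4, w_cp4 b₀ b₁ hb π w hw, Kp_right]
  ring

theorem gmw_expand' {K : Type*} [Fintype K] (B : K → ℝ) (X : K → Equiv.Perm (Fin m × Bool) → ℝ)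
    (w : Equiv.Perm (Fin m × Bool) → ℝ) (E : Finset (Fin m)) (C : Fin m → T4 m) :
    gmw (fun σ => w σ * ∑ k, B k * X k σ) E C =
      ∑ k, ∑ l, B k * B l * gmw2 (fun σ => w σ * X k σ) (fun σ => w σ * X l σ) E C := by
  have h1 : gmw (fun σ => w σ * ∑ k, B k * X k σ) E C =
      ∑ p : Equiv.Perm (Fin m × Bool) × Equiv.Perm (Fin m × Bool), ∑ q : K × K,
        sn p.1 * sn p.2 * (B q.1 * B q.2 * (w p.1 * X q.1 p.1 *
          (w p.2 * X q.2 p.2) * Kp E C p.1 p.2)) := by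
    rw [Fintype.sum_prod_type]
    refine sum_congr rfl fun σ _ => sum_congr rfl fun τ _ => ?_
    rw [Fintype.sum_prod_type]
    show sn σ * sn τ * ((w σ * ∑ k, B k * X k σ) * (w τ * ∑ k, B k * X k τ) *
      Kp E C σ τ) = _
    rw [show sn σ * sn τ * ((w σ * ∑ k, B k * X k σ) *
        (w τ * ∑ k, B k * X k τ) * Kp E C σ τ) =
        (∑ k, B k * X k σ) * (∑ k, B k * X k τ) *
          (sn σ * sn τ * w σ * w τ * Kp E C σ τ) by ring, sum_mul_sum, sum_mul]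
    refine sum_congr rfl fun F _ => ?_
    rw [sum_mul]
    refine sum_congr rfl fun G _ => ?_
    simp only
    ring
  rw [h1, sum_comm, Fintype.sum_prod_type]
  refine sum_congr rfl fun F _ => sum_congr rfl fun G _ => ?_
  rw [Fintype.sum_prod_type, gmw2_eq, mul_sum]
  refine sum_congr rfl fun σ _ => ?_
  rw [mul_sum]
  refine sum_congr rfl fun τ _ => ?_
  simp only
  ring

theorem gmw_us (b₀ b₁ : Fin m) (hb : b₁ ≠ b₀) (u : Fin 4 → Fin m × Bool → ℝ)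
    (w : Equiv.Perm (Fin m × Bool) → ℝ)
    (hw : ∀ σ σ' : Equiv.Perm (Fin m × Bool),
      (∀ x : Fin m × Bool, x.1 ≠ b₀ → x.1 ≠ b₁ → σ x = σ' x) → w σ = w σ')
    (S : Finset (Fin m)) (C : Fin m → T4 m) :
    gmw (fun σ => w σ * ∑ π : Equiv.Perm (Fin 4), sn π * us b₀ b₁ (fun i => u (π i)) σ)
      ((S.erase b₀).erase b₁) C =
      576 * gmw (fun σ => w σ * us b₀ b₁ u σ) ((S.erase b₀).erase b₁) C := by
  rw [gmw_expand' (fun π : Equiv.Perm (Fin 4) => sn π)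
    (fun π σ => us b₀ b₁ (fun i => u (π i)) σ)]
  have h1 : ∀ π π' : Equiv.Perm (Fin 4), sn π * sn π' *
      gmw2 (fun σ => w σ * us b₀ b₁ (fun i => u (π i)) σ)
        (fun σ => w σ * us b₀ b₁ (fun i => u (π' i)) σ) ((S.erase b₀).erase b₁) C =
      gmw (fun σ => w σ * us b₀ b₁ u σ) ((S.erase b₀).erase b₁) C := by
    intro π π'
    rw [gmw2_us_left b₀ b₁ hb u w _ hw, gmw2_us_right b₀ b₁ hb u w _ hw]
    have e1 := sn_mul_self π
    have e2 := sn_mul_self π'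
    have e3 : gmw2 (fun σ => w σ * us b₀ b₁ u σ) (fun σ => w σ * us b₀ b₁ u σ)
        ((S.erase b₀).erase b₁) C = gmw (fun σ => w σ * us b₀ b₁ u σ) ((S.erase b₀).erase b₁) C :=
      rfl
    rw [e3]
    linear_combination gmw (fun σ => w σ * us b₀ b₁ u σ) ((S.erase b₀).erase b₁) C *
      (e1 * (sn π' * sn π') + e2)
  rw [sum_congr rfl fun π _ => sum_congr rfl fun π' _ => h1 π π', sum_const, sum_const, card_univ,
    Fintype.card_perm, Fintype.card_fin, nsmul_eq_mul, nsmul_eq_mul]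
  have : ((Nat.factorial 4 : ℕ) : ℝ) = 24 := by norm_num [Nat.factorial]
  rw [this]
  ring

theorem sum_awF (a : Fin m × Bool → Fin 5 → ℝ) (b₀ b₁ : Fin m) (u : Fin 4 → Fin 5 → ℝ)
    (σ : Equiv.Perm (Fin m × Bool)) :
    ∑ F : Fin 4 → Fin 5, (∑ π : Equiv.Perm (Fin 4), sn π * ∏ i, u (π i) (F i)) *
      awF a b₀ b₁ F σ =
    ∑ π : Equiv.Perm (Fin 4), sn π *
      us b₀ b₁ (fun i => fun j => ∑ p, a j p * u (π i) p) σ := by
  simp only [sum_mul]
  rw [sum_comm]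
  refine sum_congr rfl fun π _ => ?_
  unfold us awF
  rw [Fintype.prod_sum, mul_sum]
  refine sum_congr rfl fun F _ => ?_
  rw [prod_mul_distrib]
  ring

/-- the covectors with new ones in the slots of two places -/
def upd (v : Fin m × Bool → Fin m × Bool → ℝ) (b₀ b₁ : Fin m) (u : Fin 4 → Fin m × Bool → ℝ)
    (q : Fin m × Bool) : Fin m × Bool → ℝ :=
  if q.1 = b₀ then (if q.2 then u 1 else u 0) else
    if q.1 = b₁ then (if q.2 then u 3 else u 2) else v q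

theorem wt_upd (v : Fin m × Bool → Fin m × Bool → ℝ) {b₀ b₁ : Fin m} (hb : b₁ ≠ b₀)
    {S : Finset (Fin m)} (h0 : b₀ ∈ S) (h1 : b₁ ∈ S) (u : Fin 4 → Fin m × Bool → ℝ)
    (σ : Equiv.Perm (Fin m × Bool)) :
    wt ((S.erase b₀).erase b₁) (upd v b₀ b₁ u) σ = wt S v σ * us b₀ b₁ u σ := by
  have hset : univ \ ((S.erase b₀).erase b₁) = insert b₀ (insert b₁ (univ \ S)) := by
    ext b
    simp only [mem_sdiff, mem_univ, true_and, mem_erase, mem_insert]
    by_cases e0 : b = b₀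
    · simp [e0]
    · by_cases e1 : b = b₁
      · simp [e1]
      · simp [e0, e1]
  unfold wt
  rw [hset, prod_insert, prod_insert]
  · have e1 : ∏ b ∈ univ \ S, (upd v b₀ b₁ u (b, false) (σ (b, false)) *
        upd v b₀ b₁ u (b, true) (σ (b, true))) =
        ∏ b ∈ univ \ S, (v (b, false) (σ (b, false)) * v (b, true) (σ (b, true))) := by
      refine prod_congr rfl fun b hb' => ?_
      have hbS : b ∉ S := (mem_sdiff.1 hb').2
      have n0 : b ≠ b₀ := fun h => hbS (h ▸ h0)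
      have n1 : b ≠ b₁ := fun h => hbS (h ▸ h1)
      simp only [upd, if_neg n0, if_neg n1]
    rw [e1]
    unfold us
    rw [Fin.prod_univ_four]
    simp only [upd, if_neg hb, if_true, slot, Bool.false_eq_true, if_false]
    change _ = _ * (u 0 (σ (b₀, false)) * u 1 (σ (b₀, true)) * u 2 (σ (b₁, false)) *
      u 3 (σ (b₁, true)))
    ring
  · simp [h1]
  · simp [h0, Ne.symm hb]

theorem wt_indep (v : Fin m × Bool → Fin m × Bool → ℝ) {b₀ b₁ : Fin m}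
    {S : Finset (Fin m)} (h0 : b₀ ∈ S) (h1 : b₁ ∈ S) :
    ∀ σ σ' : Equiv.Perm (Fin m × Bool),
      (∀ x : Fin m × Bool, x.1 ≠ b₀ → x.1 ≠ b₁ → σ x = σ' x) → wt S v σ = wt S v σ' := by
  intro σ σ' h
  unfold wt
  refine prod_congr rfl fun b hb' => ?_
  have hbS : b ∉ S := (mem_sdiff.1 hb').2
  have n0 : b ≠ b₀ := fun h => hbS (h ▸ h0)
  have n1 : b ≠ b₁ := fun h => hbS (h ▸ h1)
  rw [h (b, false) n0 n1, h (b, true) n0 n1]

/-- **Two places with the same tensor on five vectors.** -/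
theorem good_pair {ι : Type*} {col : Fin m × Bool → ι} {S : Finset (Fin m)} {C : Fin m → T4 m}
    {b₀ b₁ : Fin m} (h0 : b₀ ∈ S) (h1 : b₁ ∈ S) (hb : b₁ ≠ b₀) {a : Fin m × Bool → Fin 5 → ℝ}
    {P : Q5} (hf0 : Fac5 a (C b₀) P) (hf1 : Fac5 a (C b₁) P) (hC : Cu P) (hS : Se P)
    (ha : ∀ z : Fin 5 → ℝ, Pur col (fun j => ∑ p, a j p * z p))
    (hG : Good col ((S.erase b₀).erase b₁) C) : Good col S C := by
  classical
  intro v hv
  have hw := wt_indep v h0 h1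
  rw [Pool.Agent.W60.HD.exp5 m (wt S v) S C a P P b₀ b₁ h0 h1 hb hf0 hf1]
  obtain ⟨n, u, hu⟩ := exists_dec (fun F G => P (F 0) (F 1) (G 0) (G 1) * P (F 2) (F 3) (G 2) (G 3))
    (fun F G => by
      rw [← hC.pair (F 0) (F 1) (G 0) (G 1), ← hC.pair (F 2) (F 3) (G 2) (G 3)]) (fun Z hZ => qf_nonneg hC hS Z hZ)
  rw [hu (fun F G => gmw2 (fun σ => wt S v σ * awF a b₀ b₁ F σ)
    (fun σ => wt S v σ * awF a b₀ b₁ G σ) ((S.erase b₀).erase b₁) C)
    (fun F G π => gmw2_left a b₀ b₁ hb π F (wt S v) _ hw S C)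
    (fun F G π => gmw2_right a b₀ b₁ hb π G (wt S v) _ hw S C)]
  refine sum_nonneg fun k _ => ?_
  rw [← gmw_expand' (fun F : Fin 4 → Fin 5 => ∑ π : Equiv.Perm (Fin 4), sn π *
    ∏ i, u k (π i) (F i)) (fun F σ => awF a b₀ b₁ F σ) (wt S v)]
  simp only [sum_awF]
  rw [gmw_us b₀ b₁ hb (fun i j => ∑ p, a j p * u k i p) (wt S v) hw S C]
  refine mul_nonneg (by norm_num) ?_
  have h2 : (fun σ => wt S v σ * us b₀ b₁ (fun i j => ∑ p, a j p * u k i p) σ) =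
      wt ((S.erase b₀).erase b₁) (upd v b₀ b₁ (fun i j => ∑ p, a j p * u k i p)) := by
    funext σ
    rw [wt_upd v hb h0 h1]
  rw [h2]
  refine hG _ fun q => ?_
  unfold upd
  split_ifs
  · exact ha _
  · exact ha _
  · exact ha _
  · exact ha _
  · exact hv q

end places

end Pool.Agent.Y519.HB
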