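import Pool.Agent.Y519.HB.Warp

/-!
# The classes of curvature tensors
-/

set_option autoImplicit false

namespace Pool.Agent.Y519.HB

open Pool.Agent.W666.GB Pool.Agent.W669.HD Finset

variable {V : Type} [NormedAddCommGroup V] [InnerProductSpace ℝ V]

theorem hopf_blocks {m : ℕ} (e : OrthonormalBasis (Fin m × Bool) ℝ V) {δ : ℝ} (hδ : 0 ≤ δ)
    {R : V → V → V → V → ℝ} (hRc : AlgCurv R) (h : HopfBlocks δ R) :
    roundGB m δ ≤ (-1) ^ m * gbc e R := by
  obtain ⟨r, U, S, n, x, y, p, q, ⟨hU, hT⟩, hS, hL, hH, hx, hy, hR⟩ := h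
  exact block_bound e hδ hU hT hS hL hH hx hy hRc hR

theorem five_hopf [FiniteDimensional ℝ V] {δ : ℝ} {R : V → V → V → V → ℝ}
    (h : FiveBlocks δ R) : HopfBlocks δ R := by
  obtain ⟨r, U, W, W', S, S', n, x, y, p, q, hO, hW, hW', dW, dW', hS, hS', hL, hL', hs, hs', hx,
    hy, hR⟩ := h
  refine ⟨r, U, fun i => addT (S i) (S' i), n, x, y, p, q, hO, fun i => add_curv (hS i) (hS' i),
    ?_, ?_, hx, hy, ?_⟩
  · intro i z hz a b c
    simp only [addT]
    rw [hL i z (Submodule.orthogonal_le (hW i) hz), hL' i z (Submodule.orthogonal_le (hW' i) hz),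
      add_zero]
  · intro i
    refine hopf_twoFive ⟨W i, W' i, S i, S' i, 0, Fin.elim0, Fin.elim0, dW i, dW' i, hS i, hS' i,
      hL i, hL' i, hs i, hs' i, ?_⟩ (U i)
    intro a b c d
    simp [addT]
  · intro a b c d
    exact hR a b c d

theorem warp_hopf [FiniteDimensional ℝ V] {δ : ℝ} {R : V → V → V → V → ℝ}
    (h : WarpType δ R) : HopfBlocks δ R := by
  classical
  obtain ⟨r, U, S, h, k, hO, hd, hS, hL, hh, hk, hR, hK⟩ := h
  have perp : ∀ i j, i ≠ j → ∀ x ∈ U i, x ∈ (U j)ᗮ := by
    intro i j hij x hx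
    rw [Submodule.mem_orthogonal]
    intro u hu
    exact hO.1 j i (Ne.symm hij) u hu x hx
  -- vanishing
  have v1 : ∀ i j, i ≠ j → ∀ x ∈ U i, ∀ b c d, S j x b c d = 0 := fun i j hij x hx b c d =>
    hL j x (perp i j hij x hx) b c d
  have v2 : ∀ i j, i ≠ j → ∀ x ∈ U i, ∀ b c d, S j b x c d = 0 := by
    intro i j hij x hx b c d
    rw [(hS j).anti x b, v1 i j hij x hx, neg_zero]
  have vh : ∀ i j l, i ≠ j → ∀ x ∈ U i, ∀ y, h j l x y = 0 := fun i j l hij x hx y =>
    (hh j l).lives x (perp i j hij x hx) y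
  have vh' : ∀ i j l, i ≠ j → ∀ x ∈ U i, ∀ y, h j l y x = 0 := fun i j l hij x hx y => by
    rw [(hh j l).symm, vh i j l hij x hx]
  have vk : ∀ i j l, i ≠ l → ∀ x ∈ U i, ∀ y, k j l x y = 0 := fun i j l hij x hx y =>
    (hk j l).lives x (perp i l hij x hx) y
  have vk' : ∀ i j l, i ≠ l → ∀ x ∈ U i, ∀ y, k j l y x = 0 := fun i j l hij x hx y => by
    rw [(hk j l).symm, vk i j l hij x hx]
  have hs : ∀ i a b, S i a b a b ≤ 0 := by
    intro i a b
    have ha := (U i).starProjection_apply_mem a
    have hb := (U i).starProjection_apply_mem b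
    rw [lives_eq (hS i) (hL i) ((U i).sub_starProjection_mem_orthogonal a)
      ((U i).sub_starProjection_mem_orthogonal b) ((U i).sub_starProjection_mem_orthogonal a)
      ((U i).sub_starProjection_mem_orthogonal b)]
    generalize (U i).starProjection a = a' at ha
    generalize (U i).starProjection b = b' at hb
    have h1 := hR a' b' a' b'
    have h2 := hK a' b'
    rw [h1, Finset.sum_eq_single i (fun j _ hj => v1 i j (Ne.symm hj) a' ha _ _ _)
      (fun hi => absurd (mem_univ _) hi)] at h2
    have h3 : (∑ p, ∑ q, if p < q then kn (h p q) (k p q) a' b' a' b' else 0) = 0 := by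
      refine sum_eq_zero fun p _ => sum_eq_zero fun q _ => ?_
      split_ifs with hpq
      · by_cases hp : i = p
        · have hq : i ≠ q := by rw [hp]; exact ne_of_lt hpq
          simp only [kn, vk i p q hq _ ha, vk i p q hq _ hb]
          ring
        · simp only [kn, vh i p q hp _ ha, vh i p q hp _ hb]
          ring
      · rfl
    rw [h3, add_zero] at h2
    exact h2
  have hmix : ∀ i j, i < j → ∀ a b, h i j a a * k i j b b ≤ 0 := by
    intro i j hij a b
    have ha := (U i).starProjection_apply_mem a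
    have hb := (U j).starProjection_apply_mem b
    rw [(hh i j).eq_of_sub ((U i).sub_starProjection_mem_orthogonal a)
      ((U i).sub_starProjection_mem_orthogonal a),
      (hk i j).eq_of_sub ((U j).sub_starProjection_mem_orthogonal b)
      ((U j).sub_starProjection_mem_orthogonal b)]
    generalize (U i).starProjection a = a' at ha
    generalize (U j).starProjection b = b' at hb
    have hij' : i ≠ j := ne_of_lt hij
    have h1 := hR a' b' a' b'
    have h2 := hK a' b'
    have h0 : ∑ l, S l a' b' a' b' = 0 := by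
      refine sum_eq_zero fun l _ => ?_
      by_cases hl : i = l
      · rw [← hl]
        exact v2 j i (Ne.symm hij') b' hb _ _ _
      · exact v1 i l hl a' ha _ _ _
    have h3 : (∑ p, ∑ q, if p < q then kn (h p q) (k p q) a' b' a' b' else 0) =
        h i j a' a' * k i j b' b' := by
      rw [Finset.sum_eq_single i, Finset.sum_eq_single j]
      · rw [if_pos hij]
        simp only [kn, vh' j i j (Ne.symm hij') b' hb, vh j i j (Ne.symm hij') b' hb]
        ring
      · intro q _ hq
        split_ifs with hpq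
        · simp only [kn, vk j i q (Ne.symm hq) b' hb, vk i i q (ne_of_lt hpq) a' ha]
          ring
        · rfl
      · intro hj
        exact absurd (mem_univ _) hj
      · intro p _ hp
        refine sum_eq_zero fun q _ => ?_
        split_ifs with hpq
        · by_cases hpj : j = p
          · have hq : i ≠ q := ne_of_lt ((hij.trans_le (le_of_eq hpj)).trans hpq)
            simp only [kn, vh i p q (Ne.symm hp) a' ha, vh' i p q (Ne.symm hp) a' ha,
              vk i p q hq a' ha, vk' i p q hq a' ha]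
            ring
          · simp only [kn, vh i p q (Ne.symm hp) a' ha, vh j p q hpj b' hb,
              vh' i p q (Ne.symm hp) a' ha, vh' j p q hpj b' hb]
            ring
        · rfl
      · intro hi
        exact absurd (mem_univ _) hi
    rw [h1, h0, h3, zero_add] at h2
    exact h2
  -- the squares
  have hsq : ∀ i j, ∃ (n : ℕ) (x y : Fin n → V), (∀ a, x a ∈ U i) ∧ (∀ a, y a ∈ U j) ∧
      ∀ a b c d, (if i < j then kn (h i j) (k i j) a b c d else 0) =
        - ∑ l, sqDec (x l) (y l) a b c d := by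
    intro i j
    by_cases hij : i < j
    · obtain ⟨n, x, y, hx, hy, he⟩ := kn_neg (hh i j) (hk i j) (hmix i j hij)
      exact ⟨n, x, y, hx, hy, fun a b c d => by rw [if_pos hij, he]⟩
    · exact ⟨0, Fin.elim0, Fin.elim0, fun a => a.elim0, fun a => a.elim0,
        fun a b c d => by simp [hij]⟩
  choose n x y hx hy he using hsq
  obtain ⟨g⟩ : Nonempty (Fin (Fintype.card (Σ ij : Fin r × Fin r, Fin (n ij.1 ij.2))) ≃
      (Σ ij : Fin r × Fin r, Fin (n ij.1 ij.2))) := ⟨(Fintype.equivFin _).symm⟩
  refine ⟨r, U, S, _, fun l => x (g l).1.1 (g l).1.2 (g l).2, fun l => y (g l).1.1 (g l).1.2 (g l).2,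
    fun l => (g l).1.1, fun l => (g l).1.2, hO, hS, hL, ?_, fun l => hx _ _ _, fun l => hy _ _ _, ?_⟩
  · intro i
    rcases hd i with h5 | hH
    · exact hopf_twoFive (twoFive_one (hS i) h5 (hL i) (hs i)) (U i)
    · exact hH
  · intro a b c d
    have h1 := hR a b c d
    have h2 : (∑ i, ∑ j, if i < j then kn (h i j) (k i j) a b c d else 0) =
        - ∑ l, sqDec (x (g l).1.1 (g l).1.2 (g l).2) (y (g l).1.1 (g l).1.2 (g l).2) a b c d := by
      rw [Equiv.sum_comp g (fun s : (Σ ij : Fin r × Fin r, Fin (n ij.1 ij.2)) =>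
        sqDec (x s.1.1 s.1.2 s.2) (y s.1.1 s.1.2 s.2) a b c d), Fintype.sum_sigma,
        Fintype.sum_prod_type, ← sum_neg_distrib]
      refine sum_congr rfl fun i _ => ?_
      rw [← sum_neg_distrib]
      refine sum_congr rfl fun j _ => ?_
      exact he i j a b c d
    rw [h2] at h1
    linarith

/-- **Superadditivity.** -/
theorem mono_super {m : ℕ} (hm : 0 < m) (e : OrthonormalBasis (Fin m × Bool) ℝ V) {δ : ℝ}
    (hδ : 0 ≤ δ) {n : ℕ} {x y : Fin n → V} {S T : V → V → V → V → ℝ} (hS : AlgCurv S)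
    (hH : ∀ k < m, ∀ (E : Submodule ℝ V) (e : OrthonormalBasis (Fin k × Bool) ℝ E),
      0 ≤ (-1) ^ k * gbc e (fun x y z w : E => S x y z w))
    (hT : ∀ a b c d, T a b c d = - (∑ k, sqDec (x k) (y k) a b c d) - δ * unitT a b c d) :
    (-1) ^ m * gbc e S + (-1) ^ m * gbc e T ≤ (-1) ^ m * gbc e (addT S T) ∧
      roundGB m δ ≤ (-1) ^ m * gbc e T := by
  classical
  obtain ⟨X, hX⟩ : ∃ X : Fin n ⊕ ((Fin m × Bool) × (Fin m × Bool)) → Fin m × Bool → ℝ,
    X = (Sum.elim (fun k i => inner ℝ (x k) (e i))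
      (fun p : (Fin m × Bool) × (Fin m × Bool) => fun i =>
        Real.sqrt (δ / 2) * (if i = p.1 then 1 else 0))) := ⟨_, rfl⟩
  obtain ⟨Y, hY⟩ : ∃ Y : Fin n ⊕ ((Fin m × Bool) × (Fin m × Bool)) → Fin m × Bool → ℝ,
    Y = (Sum.elim (fun k i => inner ℝ (y k) (e i))
      (fun p j => if j = p.2 then 1 else 0)) := ⟨_, rfl⟩
  have hDT : ∀ _ : Fin m, cp e (negT T) = Dq X Y := by
    intro _
    funext i j k l
    have hu := congrFun (congrFun (congrFun (congrFun (unit_Dq (m := m) hδ) i) j) k) l
    simp only [Dq] at hu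
    simp only [cp, negT, hT, Dq, hX, hY, Fintype.sum_sum_type, Sum.elim_inl, Sum.elim_inr, ← hu,
      cp_unit, sqDec]
    ring
  have hD : ∀ _ : Fin m, cp e (negT (addT S T)) = fun i j k l => cp e (negT S) i j k l +
      Dq X Y i j k l := by
    intro a
    funext i j k l
    have h1 := congrFun (congrFun (congrFun (congrFun (hDT a) i) j) k) l
    rw [← h1]
    simp only [cp, negT, addT]
    ring
  have hlow : gm (fun _ : Fin m => (fun i j k l => δ * unitCurv i j k l : T4 m)) ≤
      gm (fun _ : Fin m => Dq X Y) := by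
    rw [unit_Dq hδ, hX, hY]
    exact dq_ge _ _ _ _
  have hpos : ∀ S' ∈ (univ : Finset (Fin m)).powerset, S' ≠ univ →
      0 ≤ mix (cp e (negT S)) (Dq X Y) S' := by
    intro S' _ hne
    refine place_nonneg (col := fun _ : Fin m × Bool => ()) ⟨()⟩ (fun a => ⟨(), fun _ h => absurd rfl h⟩)
      (fun a => ⟨(), fun _ h => absurd rfl h⟩) (C := fun _ => cp e (negT S)) ?_
    intro v hv
    obtain ⟨c, z, -, hgen⟩ := gen _ S' v hv
    rw [hgen (fun _ => cp e (negT S))]
    refine mul_nonneg (sq_nonneg _) ?_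
    refine EE_of_hopf e hS (U := ⊤) ?_ ?_ z
    · intro a ha y z w
      rw [Submodule.top_orthogonal_eq_bot, Submodule.mem_bot] at ha
      rw [ha]
      have := hS.smul 0 0 y z w
      simpa using this
    · intro E _ ε
      refine hH _ ?_ E ε
      rw [Fintype.card_coe]
      have h1 : S' ⊂ univ := Finset.ssubset_univ_iff.2 hne
      have h2 := Finset.card_lt_card h1
      rwa [card_univ, Fintype.card_fin] at h2
  have hu : (univ : Finset (Fin m)) ∈ (univ : Finset (Fin m)).powerset :=
    Finset.mem_powerset.2 (Finset.Subset.refl _)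
  have hmem : (∅ : Finset (Fin m)) ∈ (univ : Finset (Fin m)).powerset.erase univ := by
    rw [mem_erase]
    refine ⟨?_, Finset.empty_mem_powerset _⟩
    intro h
    have : (⟨0, hm⟩ : Fin m) ∈ (∅ : Finset (Fin m)) := by rw [h]; exact mem_univ _
    exact absurd this (notMem_empty _)
  have hgm : gm (fun _ : Fin m => cp e (negT S)) + gm (fun _ : Fin m => Dq X Y) ≤
      gm (fun _ : Fin m => cp e (negT (addT S T))) := by
    rw [show (fun _ : Fin m => cp e (negT (addT S T))) = _ from funext hD,
      gm_add (m := m) (cp e (negT S)) (Dq X Y), ← Finset.add_sum_erase _ _ hu]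
    have hfull : mix (cp e (negT S)) (Dq X Y) univ = gm (fun _ : Fin m => cp e (negT S)) := by
      unfold mix
      simp only [Finset.mem_univ, if_true]
    rw [hfull]
    have h1 := Finset.single_le_sum (f := fun S' => mix (cp e (negT S)) (Dq X Y) S')
      (fun S' hS' => hpos S' (mem_of_mem_erase hS') (ne_of_mem_erase hS')) hmem
    rw [mix_empty] at h1
    linarith
  have hπ := Real.pi_pos
  have hc : 0 < 1 / ((8 * Real.pi) ^ m * (m.factorial : ℝ)) := by positivity
  constructor
  · rw [gbc_eq, gbc_eq, gbc_eq, ← mul_add, show (fun _ : Fin m => cp e (negT T)) = _ from funext hDT]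
    exact mul_le_mul_of_nonneg_left hgm hc.le
  · rw [gbc_eq, const_eq, show (fun _ : Fin m => cp e (negT T)) = _ from funext hDT]
    refine mul_le_mul_of_nonneg_left ?_ hc.le
    rw [← unit_gm]
    exact hlow

/-- in dimension six nonpositive sectional curvature suffices -/
theorem six_super (e : OrthonormalBasis (Fin 3 × Bool) ℝ V) {δ : ℝ}
    (hδ : 0 ≤ δ) {n : ℕ} {x y : Fin n → V} {S T : V → V → V → V → ℝ} (hS : AlgCurv S)
    (hs : ∀ a b, S a b a b ≤ 0)
    (hT : ∀ a b c d, T a b c d = - (∑ k, sqDec (x k) (y k) a b c d) - δ * unitT a b c d) :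
    - gbc e S - gbc e T ≤ - gbc e (addT S T) ∧ roundGB 3 δ ≤ - gbc e T := by
  have hfin : FiniteDimensional ℝ V := Module.Finite.of_basis e.toBasis
  have h := mono_super (by norm_num) e hδ hS (fun k hk E ε => by
    have hE : Module.finrank ℝ (⊤ : Submodule ℝ E) ≤ 5 := by
      rw [finrank_top, Module.finrank_eq_card_basis ε.toBasis]
      simp only [Fintype.card_prod, Fintype.card_fin, Fintype.card_bool]
      omega
    have h2 : TwoFive 0 (fun x y z w : E => S x y z w) := by
      refine twoFive_one (restrict_curv hS E) hE ?_ (fun x y => hs x y)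
      intro a ha y z w
      rw [Submodule.top_orthogonal_eq_bot, Submodule.mem_bot] at ha
      rw [ha]
      have := hS.smul 0 0 (y : V) (z : V) (w : V)
      simpa using this
    exact (roundGB_nonneg le_rfl).trans (two_five ε le_rfl h2)) hT
  obtain ⟨h1, h2⟩ := h
  constructor
  · linarith
  · linarith

end Pool.Agent.Y519.HB
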