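import Pool.Agent.Y519.HB.Pair
import Pool.Agent.Y519.HB.Defs
import Pool.Agent.W669.HD.Main
import Pool.Agent.W298.HD.VEC5

/-!
# Two tensors of nonnegative sectional values living on five vectors and squares of decomposable
forms
-/

set_option autoImplicit false

namespace Pool.Agent.Y519.HB

open Pool.Agent.W666.GB Pool.Agent.W669.HD Finset

section comp

variable {m : ℕ}

theorem fac5_pul {a : Fin m × Bool → Fin 5 → ℝ} {P : T4 m} {K : Q5} (h : Fac5 a P K) :
    P = pul K a := by
  funext i j k l
  rw [h i j k l]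
  unfold pul
  rw [ev4_eq]

theorem cu_add {J : Type*} {P Q : J → J → J → J → ℝ} (hP : Cu P) (hQ : Cu Q) :
    Cu (fun i j k l => P i j k l + Q i j k l) where
  a12 i j k l := by rw [hP.a12, hQ.a12]; ring
  pair i j k l := by rw [hP.pair, hQ.pair]
  bia i j k l := by linear_combination hP.bia i j k l + hQ.bia i j k l

theorem ev4_add {J : Type*} [Fintype J] (P Q : J → J → J → J → ℝ) (x y z w : J → ℝ) :
    ev4 (fun i j k l => P i j k l + Q i j k l) x y z w = ev4 P x y z w + ev4 Q x y z w := by
  unfold ev4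
  rw [← sum_add_distrib]
  exact sum_congr rfl fun p _ => by ring

theorem se_add {J : Type*} [Fintype J] {P Q : J → J → J → J → ℝ} (hP : Se P) (hQ : Se Q) :
    Se (fun i j k l => P i j k l + Q i j k l) := by
  intro x y
  rw [ev4_add]
  exact add_nonneg (hP x y) (hQ x y)

theorem good_congr {ι : Type*} {col : Fin m × Bool → ι} {S : Finset (Fin m)}
    {C C' : Fin m → T4 m} (h : ∀ b ∈ S, C b = C' b) (hG : Good col S C) : Good col S C' := by
  intro v hv
  rw [← gmw_congr (wt S v) S h]
  exact hG v hv

theorem pur_unit (x : Fin m × Bool → ℝ) : Pur (fun _ : Fin m × Bool => ()) x :=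
  ⟨(), fun _ h => absurd rfl h⟩

/-- **Two pieces, components.** -/
theorem two_comp {P₁ P₂ : T4 m} {a₁ a₂ : Fin m × Bool → Fin 5 → ℝ} {K₁ K₂ : Q5}
    (hf₁ : Fac5 a₁ P₁ K₁) (hf₂ : Fac5 a₂ P₂ K₂) (hC₁ : Cu K₁) (hC₂ : Cu K₂) (hS₁ : Se K₁)
    (hS₂ : Se K₂) {κ : Type} [Fintype κ] (x y : κ → Fin m × Bool → ℝ) :
    gm (fun _ : Fin m => Dq x y) ≤
      gm (fun _ : Fin m => (fun i j k l => (P₁ i j k l + P₂ i j k l) + Dq x y i j k l : T4 m)) := by
  classical
  have hP1 := fac5_pul hf₁
  have hP2 := fac5_pul hf₂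
  have cP1 : Cu P₁ := by rw [hP1]; exact cu_pul hC₁ a₁
  have cP2 : Cu P₂ := by rw [hP2]; exact cu_pul hC₂ a₂
  have sP1 : Se P₁ := by rw [hP1]; exact se_pul hC₁ hS₁ a₁
  have sP2 : Se P₂ := by rw [hP2]; exact se_pul hC₂ hS₂ a₂
  have cP := cu_add cP1 cP2
  have sP := se_add sP1 sP2
  rw [gm_add (m := m) (fun i j k l => P₁ i j k l + P₂ i j k l) (Dq x y)]
  have hpos : ∀ S ∈ (univ : Finset (Fin m)).powerset,
      0 ≤ mix (fun i j k l => P₁ i j k l + P₂ i j k l) (Dq x y) S := by
    intro S _
    rcases Nat.lt_or_ge 2 S.card with h3 | h2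
    · rw [mix_expand]
      refine sum_nonneg fun T hT => ?_
      have hTS := mem_powerset.1 hT
      have hcard : T.card + (S \ T).card = S.card := by
        rw [add_comm]; exact Finset.card_sdiff_add_card_eq_card hTS
      rcases Nat.lt_or_ge 2 T.card with hT3 | hT2
      · obtain ⟨b₀, h0, b₁, h1, b₂, h2, n01, n02, n12⟩ := Finset.two_lt_card.1 hT3
        rw [Pool.Agent.W696.HD.VAN5.main m _ a₁ K₁ K₁ K₁ b₀ b₁ b₂ (Ne.symm n01) (Ne.symm n02)
          (Ne.symm n12) (by rw [if_pos h0]; exact hf₁) (by rw [if_pos h1]; exact hf₁)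
          (by rw [if_pos h2]; exact hf₁)]
      rcases Nat.lt_or_ge 2 (S \ T).card with hU3 | hU2
      · obtain ⟨b₀, h0, b₁, h1, b₂, h2, n01, n02, n12⟩ := Finset.two_lt_card.1 hU3
        have e : ∀ b ∈ S \ T, (if b ∈ T then P₁ else if b ∈ S then P₂ else Dq x y) = P₂ := by
          intro b hb
          rw [mem_sdiff] at hb
          rw [if_neg hb.2, if_pos hb.1]
        rw [Pool.Agent.W696.HD.VAN5.main m _ a₂ K₂ K₂ K₂ b₀ b₁ b₂ (Ne.symm n01) (Ne.symm n02)
          (Ne.symm n12) (by rw [e _ h0]; exact hf₂) (by rw [e _ h1]; exact hf₂)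
          (by rw [e _ h2]; exact hf₂)]
      -- now one of the two parts has exactly two elements
      have hfun : (fun b => if b ∈ T then P₁ else if b ∈ S then P₂ else Dq x y) =
          fun b => if b ∈ S then (if b ∈ T then P₁ else P₂) else Dq x y := by
        funext b
        by_cases hb : b ∈ T
        · simp [hb, hTS hb]
        · simp [hb]
      rw [hfun]
      refine place_nonneg (col := fun _ : Fin m × Bool => ()) ⟨()⟩ (fun a => pur_unit _)
        (fun a => pur_unit _) (C := fun b => if b ∈ T then P₁ else P₂) ?_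
      rcases Nat.lt_or_ge T.card 2 with hT1 | hT2'
      · have hU : (S \ T).card = 2 := by omega
        obtain ⟨b₀, b₁, n01, hUe⟩ := Finset.card_eq_two.1 hU
        have m0 : b₀ ∈ S \ T := by rw [hUe]; simp
        have m1 : b₁ ∈ S \ T := by rw [hUe]; simp
        have k0 := mem_sdiff.1 m0
        have k1 := mem_sdiff.1 m1
        refine good_pair k0.1 k1.1 (Ne.symm n01) (a := a₂) (P := K₂)
          (by rw [if_neg k0.2]; exact hf₂) (by rw [if_neg k1.2]; exact hf₂) hC₂ hS₂
          (fun z => pur_unit _) ?_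
        have hS' : (S.erase b₀).erase b₁ = T := by
          ext b
          simp only [mem_erase]
          constructor
          · rintro ⟨h1, h0, hb⟩
            by_contra hbT
            have : b ∈ S \ T := mem_sdiff.2 ⟨hb, hbT⟩
            rw [hUe, mem_insert, mem_singleton] at this
            rcases this with h | h
            · exact h0 h
            · exact h1 h
          · intro hb
            exact ⟨fun h => k1.2 (h ▸ hb), fun h => k0.2 (h ▸ hb), hTS hb⟩
        rw [hS']
        refine good_congr (C := fun _ => P₁) (fun b hb => by rw [if_pos hb]) ?_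
        exact good_two cP1 sP1 hT2
      · have hTc : T.card = 2 := by omega
        obtain ⟨b₀, b₁, n01, hTe⟩ := Finset.card_eq_two.1 hTc
        have m0 : b₀ ∈ T := by rw [hTe]; simp
        have m1 : b₁ ∈ T := by rw [hTe]; simp
        refine good_pair (hTS m0) (hTS m1) (Ne.symm n01) (a := a₁) (P := K₁)
          (by rw [if_pos m0]; exact hf₁) (by rw [if_pos m1]; exact hf₁) hC₁ hS₁
          (fun z => pur_unit _) ?_
        have hS' : (S.erase b₀).erase b₁ = S \ T := by
          ext b
          rw [mem_erase, mem_erase, mem_sdiff, hTe, mem_insert, mem_singleton]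
          tauto
        rw [hS']
        refine good_congr (C := fun _ => P₂) (fun b hb => by rw [if_neg (mem_sdiff.1 hb).2]) ?_
        exact good_two cP2 sP2 hU2
    · exact place_nonneg (col := fun _ : Fin m × Bool => ()) ⟨()⟩ (fun a => pur_unit _)
        (fun a => pur_unit _)
        (C := fun _ => (fun i j k l => P₁ i j k l + P₂ i j k l : T4 m)) (good_two cP sP h2)
  have h1 := Finset.single_le_sum hpos (Finset.empty_mem_powerset _)
  rwa [mix_empty] at h1

/-- lower bound by a part of the squares -/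
theorem dq_ge {κ κ' : Type} [Fintype κ] [Fintype κ'] (x y : κ → Fin m × Bool → ℝ)
    (x' y' : κ' → Fin m × Bool → ℝ) :
    gm (fun _ : Fin m => Dq x' y') ≤
      gm (fun _ : Fin m => Dq (Sum.elim x x') (Sum.elim y y')) := by
  classical
  have h0 : (Dq (Sum.elim x x') (Sum.elim y y') : T4 m) =
      fun i j k l => Dq x y i j k l + Dq x' y' i j k l := by
    funext i j k l
    simp only [Dq, Fintype.sum_sum_type, Sum.elim_inl, Sum.elim_inr]
  rw [h0, gm_add]
  have hpos : ∀ S ∈ (univ : Finset (Fin m)).powerset, 0 ≤ mix (Dq x y) (Dq x' y') S := fun S _ =>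
    mix_nonneg (fun a i j => x a i * y a j - x a j * y a i) (fun _ _ _ _ => rfl)
      (fun a i j => x' a i * y' a j - x' a j * y' a i) (fun _ _ _ _ => rfl) S
  have h1 := Finset.single_le_sum hpos (Finset.empty_mem_powerset _)
  rwa [mix_empty] at h1

/-- the unit tensor as a sum of squares of decomposable forms -/
theorem unit_Dq {δ : ℝ} (hδ : 0 ≤ δ) :
    (fun i j k l => δ * unitCurv i j k l : T4 m) =
      Dq (fun p : (Fin m × Bool) × (Fin m × Bool) => fun i =>
        Real.sqrt (δ / 2) * (if i = p.1 then 1 else 0))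
        (fun p => fun j => if j = p.2 then 1 else 0) := by
  funext i j k l
  rw [unit_squares hδ]
  unfold Dq ur
  refine sum_congr rfl fun p _ => ?_
  ring

end comp

section final

variable {m : ℕ} {V : Type} [NormedAddCommGroup V] [InnerProductSpace ℝ V]

/-- components of a nonpositively curved tensor living on a subspace of dimension at most five -/
theorem vec5' (e : OrthonormalBasis (Fin m × Bool) ℝ V) {R : V → V → V → V → ℝ}
    {W : Submodule ℝ V} (hR : AlgCurv R) (hW : Module.finrank ℝ W ≤ 5) (hL : LivesOn W R)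
    (hS : ∀ x y, R x y x y ≤ 0) :
    ∃ (a : Fin m × Bool → Fin 5 → ℝ) (P : Q5), Fac5 a (cp e (negT R)) P ∧ Cu P ∧ Se P := by
  classical
  have hfin : FiniteDimensional ℝ V := Module.Finite.of_basis e.toBasis
  let b := stdOrthonormalBasis ℝ W
  have hbo : Orthonormal ℝ (fun j => (b j : V)) := b.orthonormal.comp_linearIsometry W.subtypeₗᵢ
  obtain ⟨f, hf⟩ : ∃ f : Fin 5 → V, f = fun p => if h : p.1 < Module.finrank ℝ W then
      (b ⟨p.1, h⟩ : V) else 0 := ⟨_, rfl⟩
  have hpad : ∀ x : V, ∑ p : Fin 5, inner ℝ (f p) x • f p =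
      ∑ j, inner ℝ (b j : V) x • (b j : V) := by
    intro x
    symm
    apply Finset.sum_of_injOn (fun j : Fin (Module.finrank ℝ W) => Fin.castLE hW j)
    · intro i _ j _ h
      exact Fin.castLE_injective hW h
    · intro i _; simp
    · intro p _ hp
      have h1 : ¬ p.1 < Module.finrank ℝ W := by
        intro h
        exact hp ⟨⟨p.1, h⟩, by simp, Fin.ext rfl⟩
      rw [hf]
      simp [h1]
    · intro j _
      rw [hf]
      simp
  have hperp : ∀ x : V, x - ∑ p : Fin 5, inner ℝ (f p) x • f p ∈ Wᗮ := by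
    intro x
    rw [hpad, Submodule.mem_orthogonal]
    intro u hu
    have h1 : u = ∑ j, (b.repr ⟨u, hu⟩ j) • (b j : V) := by
      have h2 := b.sum_repr ⟨u, hu⟩
      have h3 := congrArg (fun v : W => (v : V)) h2
      simp only [Submodule.coe_sum, Submodule.coe_smul] at h3
      exact h3.symm
    rw [h1, sum_inner]
    apply Finset.sum_eq_zero
    intro j _
    rw [real_inner_smul_left, Pool.Agent.W150.HD.rest hbo, mul_zero]
  have hr : ∀ x y z w, R (x - ∑ i, inner ℝ (f i) x • f i) y z w = 0 := fun x y z w =>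
    hL _ (hperp x) y z w
  have hbi := Pool.Agent.W150.HD.curv_bi hR
  refine ⟨fun j p => inner ℝ (f p) (e j), fun p q s t => - R (f p) (f q) (f s) (f t), ?_, ?_, ?_⟩
  · intro i j k l
    change - R (e i) (e j) (e k) (e l) = _
    rw [Pool.Agent.W298.HD.eall hbi hr]
    simp only [← sum_neg_distrib]
    refine sum_congr rfl fun p _ => sum_congr rfl fun q _ => sum_congr rfl fun s _ =>
      sum_congr rfl fun t _ => by ring
  · refine ⟨?_, ?_, ?_⟩
    · intro i j k l
      rw [hR.anti]
    · intro i j k l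
      rw [hR.pair]
    · intro i j k l
      have := hR.bianchi (f i) (f j) (f k) (f l)
      linarith
  · intro x y
    have h1 : ev4 (fun p q s t => - R (f p) (f q) (f s) (f t)) x y x y =
        - R (∑ i, x i • f i) (∑ i, y i • f i) (∑ i, x i • f i) (∑ i, y i • f i) := by
      have s1 : ∀ (c : Fin 5 → ℝ) (u v w : V), R (∑ i, c i • f i) u v w =
          ∑ i, c i * R (f i) u v w := fun c u v w => Pool.Agent.W150.HD.sumK hbi univ c f u v w
      have s2 : ∀ (c : Fin 5 → ℝ) (u v w : V), R u (∑ i, c i • f i) v w =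
          ∑ i, c i * R u (f i) v w := by
        intro c u v w
        have h2 : R u (∑ i, c i • f i) v w = - R (∑ i, c i • f i) u v w := by
          rw [hR.anti u]; ring
        rw [h2, s1, ← sum_neg_distrib]
        refine sum_congr rfl fun i _ => ?_
        rw [hR.anti u (f i)]
        ring
      rw [ev4_eq, s1, ← sum_neg_distrib]
      refine sum_congr rfl fun i _ => ?_
      rw [s2, mul_sum, ← sum_neg_distrib]
      refine sum_congr rfl fun j _ => ?_
      rw [← hR.pair, s1, mul_sum, mul_sum, ← sum_neg_distrib]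
      refine sum_congr rfl fun k _ => ?_
      rw [s2, mul_sum, mul_sum, mul_sum, ← sum_neg_distrib]
      refine sum_congr rfl fun l _ => ?_
      rw [hR.pair]
      ring
    rw [h1]
    have := hS (∑ i, x i • f i) (∑ i, y i • f i)
    linarith

end final

end Pool.Agent.Y519.HB
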