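import Pool.Agent.Y519.HB.Bound

/-!
# Restrictions, forms, Kulkarni–Nomizu products
-/

set_option autoImplicit false

namespace Pool.Agent.Y519.HB

open Pool.Agent.W666.GB Pool.Agent.W669.HD Finset

variable {V : Type} [NormedAddCommGroup V] [InnerProductSpace ℝ V]

section restrict

theorem restrict_curv {R : V → V → V → V → ℝ} (hR : AlgCurv R) (E : Submodule ℝ V) :
    AlgCurv (fun x y z w : E => R x y z w) where
  add x x' y z w := by simp only [Submodule.coe_add, hR.add]
  smul t x y z w := by simp only [Submodule.coe_smul, hR.smul]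
  anti x y z w := hR.anti _ _ _ _
  pair x y z w := hR.pair _ _ _ _
  bianchi x y z w := hR.bianchi _ _ _ _

theorem restrict_lives [FiniteDimensional ℝ V] {R : V → V → V → V → ℝ} {W : Submodule ℝ V}
    (hL : LivesOn W R) (E : Submodule ℝ V) :
    LivesOn (W.map (E.orthogonalProjectionOnto : V →L[ℝ] E).toLinearMap)
      (fun x y z w : E => R x y z w) := by
  intro x hx y z w
  refine hL _ ?_ _ _ _
  rw [Submodule.mem_orthogonal] at hx ⊢
  intro u hu
  have h1 := hx (E.orthogonalProjectionOnto u) (Submodule.mem_map_of_mem hu)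
  rw [← h1]
  have h2 : inner ℝ (u - (E.orthogonalProjectionOnto u : V)) (x : V) = 0 := by
    have h3 := Submodule.sub_starProjection_mem_orthogonal (K := E) u
    rw [Submodule.mem_orthogonal'] at h3
    exact h3 x x.2
  rw [inner_sub_left, sub_eq_zero] at h2
  exact h2

theorem inner_proj [FiniteDimensional ℝ V] (E : Submodule ℝ V) (u : V) (x : E) :
    inner ℝ (E.orthogonalProjectionOnto u) x = inner ℝ u (x : V) := by
  have h2 : inner ℝ (u - (E.orthogonalProjectionOnto u : V)) (x : V) = 0 := by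
    have h3 := Submodule.sub_starProjection_mem_orthogonal (K := E) u
    rw [Submodule.mem_orthogonal'] at h3
    exact h3 x x.2
  rw [inner_sub_left, sub_eq_zero] at h2
  exact h2.symm

/-- The class of the two-piece theorem is stable under restriction. -/
theorem twoFive_restrict [FiniteDimensional ℝ V] {δ : ℝ} {R : V → V → V → V → ℝ}
    (h : TwoFive δ R) (E : Submodule ℝ V) : TwoFive δ (fun x y z w : E => R x y z w) := by
  obtain ⟨W₁, W₂, R₁, R₂, n, x, y, hW₁, hW₂, h₁, h₂, l₁, l₂, s₁, s₂, hR⟩ := h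
  refine ⟨_, _, fun x y z w : E => R₁ x y z w, fun x y z w : E => R₂ x y z w, n,
    fun k => E.orthogonalProjectionOnto (x k), fun k => E.orthogonalProjectionOnto (y k),
    (Submodule.finrank_map_le (E.orthogonalProjectionOnto : V →L[ℝ] E).toLinearMap W₁).trans hW₁,
    (Submodule.finrank_map_le (E.orthogonalProjectionOnto : V →L[ℝ] E).toLinearMap W₂).trans hW₂,
    restrict_curv h₁ E, restrict_curv h₂ E, restrict_lives l₁ E, restrict_lives l₂ E,
    fun u v => s₁ u v, fun u v => s₂ u v, ?_⟩
  intro a b c d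
  have hR' := hR (a : V) (b : V) (c : V) (d : V)
  have e1 : ∀ k, sqDec (E.orthogonalProjectionOnto (x k)) (E.orthogonalProjectionOnto (y k)) a b c d =
      sqDec (x k) (y k) (a : V) (b : V) (c : V) (d : V) := by
    intro k
    simp only [sqDec, inner_proj]
  simp only [e1]
  exact hR'

theorem hopf_twoFive [FiniteDimensional ℝ V] {R : V → V → V → V → ℝ} (h : TwoFive 0 R)
    (U : Submodule ℝ V) : HopfOn U R := fun _ E _ e =>
  (roundGB_nonneg le_rfl).trans (two_five e le_rfl (twoFive_restrict h E))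

/-- a tensor of nonpositive sectional curvature living on a subspace of dimension at most five -/
theorem twoFive_one [FiniteDimensional ℝ V] {R : V → V → V → V → ℝ} (hR : AlgCurv R)
    {U : Submodule ℝ V} (hU : Module.finrank ℝ U ≤ 5) (hL : LivesOn U R)
    (hs : ∀ x y, R x y x y ≤ 0) : TwoFive 0 R := by
  refine ⟨U, ⊥, R, fun _ _ _ _ => 0, 0, Fin.elim0, Fin.elim0, hU, by simp, hR, ?_, hL, ?_, hs,
    fun _ _ => le_rfl, ?_⟩
  · exact ⟨fun _ _ _ _ _ => by simp, fun _ _ _ _ _ => by simp, fun _ _ _ _ => by simp,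
      fun _ _ _ _ => by simp, fun _ _ _ _ => by simp⟩
  · intro x _ y z w
    rfl
  · intro a b c d
    simp

end restrict

section forms

theorem SymForm.sum {U : Submodule ℝ V} {h : V → V → ℝ} (hh : SymForm U h) {J : Type}
    (s : Finset J) (c : J → ℝ) (f : J → V) (y : V) :
    h (∑ i ∈ s, c i • f i) y = ∑ i ∈ s, c i * h (f i) y := by
  classical
  induction s using Finset.induction_on with
  | empty =>
    have := hh.smul 0 0 y
    simpa using this
  | insert a s ha ih => rw [sum_insert ha, sum_insert ha, hh.add, hh.smul, ih]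

theorem SymForm.sum2 {U : Submodule ℝ V} {h : V → V → ℝ} (hh : SymForm U h) {J : Type}
    [Fintype J] (c d : J → ℝ) (f : J → V) :
    h (∑ i, c i • f i) (∑ i, d i • f i) = ∑ i, ∑ j, c i * d j * h (f i) (f j) := by
  rw [hh.sum]
  refine sum_congr rfl fun i _ => ?_
  rw [hh.symm, hh.sum, mul_sum]
  refine sum_congr rfl fun j _ => ?_
  rw [hh.symm (f j)]
  ring

theorem SymForm.eq_of_sub {U : Submodule ℝ V} {h : V → V → ℝ} (hh : SymForm U h)
    {x x' y y' : V} (hx : x - x' ∈ Uᗮ) (hy : y - y' ∈ Uᗮ) : h x y = h x' y' := by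
  have h1 : ∀ {x x' : V}, x - x' ∈ Uᗮ → ∀ y, h x y = h x' y := by
    intro x x' hx y
    have e : x = (x - x') + x' := by abel
    rw [e, hh.add, hh.lives _ hx, zero_add]
  rw [h1 hx, hh.symm, h1 hy, hh.symm]

theorem SymForm.neg {U : Submodule ℝ V} {h : V → V → ℝ} (hh : SymForm U h) :
    SymForm U (fun x y => - h x y) where
  add x x' y := by rw [hh.add]; ring
  smul t x y := by rw [hh.smul]; ring
  symm x y := by rw [hh.symm]
  lives x hx y := by rw [hh.lives x hx, neg_zero]

theorem SymForm.zero (U : Submodule ℝ V) : SymForm U (fun _ _ => (0 : ℝ)) where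
  add _ _ _ := by ring
  smul _ _ _ := by ring
  symm _ _ := rfl
  lives _ _ _ := rfl

theorem SymForm.polar {U : Submodule ℝ V} {h : V → V → ℝ} (hh : SymForm U h)
    (hd : ∀ x, h x x = 0) : ∀ x y, h x y = 0 := by
  intro x y
  have h1 := hd (x + y)
  rw [hh.add, hh.symm x (x + y), hh.add, hh.symm y (x + y), hh.add, hd, hd, hh.symm y x] at h1
  linarith

theorem psd_squares [FiniteDimensional ℝ V] {U : Submodule ℝ V} {h : V → V → ℝ}
    (hh : SymForm U h) (hp : ∀ x, 0 ≤ h x x) :
    ∃ (n : ℕ) (α : Fin n → V), (∀ a, α a ∈ U) ∧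
      ∀ x y, h x y = ∑ a, inner ℝ (α a) x * inner ℝ (α a) y := by
  classical
  let u := stdOrthonormalBasis ℝ U
  obtain ⟨B, hB⟩ := sq_real (J := Fin (Module.finrank ℝ U))
    (fun i j => h (u i : V) (u j : V)) (fun i j => hh.symm _ _) (by
      intro c
      have h1 := hp (∑ i, c i • (u i : V))
      rw [hh.sum2] at h1
      refine h1.trans (le_of_eq ?_)
      refine sum_congr rfl fun i _ => sum_congr rfl fun j _ => ?_
      ring)
  refine ⟨Module.finrank ℝ U, fun a => ∑ i, B a i • (u i : V), ?_, ?_⟩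
  · intro a
    exact Submodule.sum_mem _ fun i _ => Submodule.smul_mem _ _ (u i).2
  · intro x y
    have hproj : ∀ x : V, x - ∑ i, inner ℝ (u i : V) x • (u i : V) ∈ Uᗮ := by
      intro x
      have h2 := Submodule.sub_starProjection_mem_orthogonal (K := U) x
      have h3 : U.starProjection x = ∑ i, inner ℝ (u i : V) x • (u i : V) := by
        have h4 := u.sum_repr (U.orthogonalProjectionOnto x)
        have h5 := congrArg (fun v : U => (v : V)) h4
        simp only [Submodule.coe_sum, Submodule.coe_smul] at h5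
        have h6 : (U.orthogonalProjectionOnto x : V) = U.starProjection x := rfl
        rw [← h6, ← h5]
        refine sum_congr rfl fun i _ => ?_
        rw [u.repr_apply_apply]
        congr 1
        rw [real_inner_comm, inner_proj, real_inner_comm]
      rw [h3] at h2
      exact h2
    rw [hh.eq_of_sub (hproj x) (hproj y), hh.sum2]
    have e1 : ∀ a (x : V), inner ℝ (∑ i, B a i • (u i : V)) x =
        ∑ i, B a i * inner ℝ (u i : V) x := by
      intro a x
      rw [sum_inner]
      refine sum_congr rfl fun i _ => ?_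
      rw [real_inner_smul_left]
    simp only [e1, hB, mul_sum, sum_mul]
    rw [sum_comm]
    have e2 : ∀ (j i : Fin (Module.finrank ℝ U)),
        ∑ a, inner ℝ (u i : V) x * inner ℝ (u j : V) y * (B a i * B a j) =
        ∑ a, B a i * inner ℝ (u i : V) x * (B a j * inner ℝ (u j : V) y) := by
      intro j i
      refine sum_congr rfl fun a _ => ?_
      ring
    rw [sum_congr rfl fun j _ => sum_congr rfl fun i _ => e2 j i]
    have e3 : ∀ j : Fin (Module.finrank ℝ U), ∑ i, ∑ a,
        B a i * inner ℝ (u i : V) x * (B a j * inner ℝ (u j : V) y) =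
        ∑ a, ∑ i, B a i * inner ℝ (u i : V) x * (B a j * inner ℝ (u j : V) y) :=
      fun j => sum_comm
    rw [sum_congr rfl fun j _ => e3 j, sum_comm]

/-- The product of two nonnegative forms is a sum of squares of decomposable forms. -/
theorem kn_squares [FiniteDimensional ℝ V] {U U' : Submodule ℝ V} {h k : V → V → ℝ}
    (hh : SymForm U h) (hk : SymForm U' k) (hp : ∀ x, 0 ≤ h x x) (kp : ∀ x, 0 ≤ k x x) :
    ∃ (n : ℕ) (x y : Fin n → V), (∀ a, x a ∈ U) ∧ (∀ a, y a ∈ U') ∧
      ∀ a b c d, kn h k a b c d = ∑ l, sqDec (x l) (y l) a b c d := by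
  classical
  obtain ⟨n, α, hα, ha⟩ := psd_squares hh hp
  obtain ⟨n', β, hβ, hb⟩ := psd_squares hk kp
  obtain ⟨g⟩ : Nonempty (Fin (Fintype.card (Fin n × Fin n')) ≃ Fin n × Fin n') :=
    ⟨(Fintype.equivFin _).symm⟩
  refine ⟨Fintype.card (Fin n × Fin n'), fun l => α (g l).1, fun l => β (g l).2,
    fun l => hα _, fun l => hβ _, ?_⟩
  intro a b c d
  rw [Equiv.sum_comp g (fun p : Fin n × Fin n' => sqDec (α p.1) (β p.2) a b c d),
    Fintype.sum_prod_type]
  simp only [kn, ha, hb, sum_mul_sum, ← sum_add_distrib, ← sum_sub_distrib]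
  refine sum_congr rfl fun i _ => sum_congr rfl fun j _ => ?_
  unfold sqDec
  ring

/-- The product of two forms with `h x x * k y y ≤ 0`. -/
theorem kn_neg [FiniteDimensional ℝ V] {U U' : Submodule ℝ V} {h k : V → V → ℝ}
    (hh : SymForm U h) (hk : SymForm U' k) (hhk : ∀ x y, h x x * k y y ≤ 0) :
    ∃ (n : ℕ) (x y : Fin n → V), (∀ a, x a ∈ U) ∧ (∀ a, y a ∈ U') ∧
      ∀ a b c d, kn h k a b c d = - ∑ l, sqDec (x l) (y l) a b c d := by
  by_cases h0 : ∀ x, h x x = 0
  · have h1 := hh.polar h0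
    refine ⟨0, Fin.elim0, Fin.elim0, fun a => a.elim0, fun a => a.elim0, ?_⟩
    intro a b c d
    simp [kn, h1]
  by_cases k0 : ∀ x, k x x = 0
  · have h1 := hk.polar k0
    refine ⟨0, Fin.elim0, Fin.elim0, fun a => a.elim0, fun a => a.elim0, ?_⟩
    intro a b c d
    simp [kn, h1]
  push Not at h0 k0
  obtain ⟨x₀, hx₀⟩ := h0
  obtain ⟨y₀, hy₀⟩ := k0
  rcases lt_or_gt_of_ne hx₀ with hneg | hpos
  · have kp : ∀ y, 0 ≤ k y y := fun y => by
      have := hhk x₀ y
      nlinarith
    have hy₀' : 0 < k y₀ y₀ := lt_of_le_of_ne (kp y₀) (Ne.symm hy₀)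
    have hn : ∀ x, 0 ≤ - h x x := fun x => by
      have := hhk x y₀
      nlinarith
    obtain ⟨n, x, y, hx, hy, he⟩ := kn_squares hh.neg hk hn kp
    refine ⟨n, x, y, hx, hy, fun a b c d => ?_⟩
    rw [← he]
    simp only [kn]
    ring
  · have kp : ∀ y, 0 ≤ - k y y := fun y => by
      have := hhk x₀ y
      nlinarith
    have hy₀' : k y₀ y₀ < 0 := lt_of_le_of_ne (by have := kp y₀; linarith) hy₀
    have hn : ∀ x, 0 ≤ h x x := fun x => by
      have := hhk x y₀
      nlinarith
    obtain ⟨n, x, y, hx, hy, he⟩ := kn_squares hh hk.neg hn kp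
    refine ⟨n, x, y, hx, hy, fun a b c d => ?_⟩
    rw [← he]
    simp only [kn]
    ring

end forms

end Pool.Agent.Y519.HB
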